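import Mathlib

namespace Pool.Agent.Helper73.Spectra

open FirstOrder

/-- A computable language: `rel i = some n` means that the `i`-th relation symbol exists and is
`n`-ary, `rel i = none` that there is no `i`-th relation symbol; similarly for function symbols
(constants are `0`-ary function symbols). -/
structure CLang where
  rel : ℕ → Option ℕ
  fn : ℕ → Option ℕ
  rel_computable : Computable rel
  fn_computable : Computable fn

/-- The first-order language described by a `CLang`. -/
def CLang.toLang (L : CLang) : FirstOrder.Language where
  Functions n := {i : ℕ // L.fn i = some n}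
  Relations n := {i : ℕ // L.rel i = some n}

/-- A structure with universe a set of natural numbers. -/
structure CStr (L : CLang) where
  dom : Set ℕ
  str : L.toLang.Structure dom

attribute [instance] CStr.str

variable {L : CLang}

/-- The natural number coding the sort of fact `t`, the symbol number `i` and the list of
parameters `ps`. -/
def code (t i : ℕ) (ps : List ℕ) : ℕ := Nat.pair (Nat.pair t i) (Encodable.encode ps)

/-- The atomic diagram: the codes of the true facts `a ∈ dom`, `R_i(x)` and `F_i(x) = b`. -/
def CStr.diag (A : CStr L) : Set ℕ :=
  {c | ∃ a ∈ A.dom, c = code 0 0 [a]} ∪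
  {c | ∃ (n : ℕ) (R : L.toLang.Relations n) (x : Fin n → A.dom),
    Language.Structure.RelMap R x ∧ c = code 1 R.1 (List.ofFn fun i => (x i : ℕ))} ∪
  {c | ∃ (n : ℕ) (F : L.toLang.Functions n) (x : Fin n → A.dom),
    c = code 2 F.1 (((Language.Structure.funMap F x : A.dom) : ℕ) :: List.ofFn fun i => (x i : ℕ))}

/-- The characteristic function of a set of natural numbers. -/
noncomputable def chi (S : Set ℕ) : ℕ → ℕ := S.indicator (fun _ => 1)

/-- The Turing degree of a structure, i.e. of its atomic diagram. -/
noncomputable def CStr.deg (A : CStr L) : TuringDegree :=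
  toAntisymmetrization TuringReducible (fun n => Part.some (chi A.diag n))

/-- The isomorphism spectrum. -/
def isoSpec (A : CStr L) : Set TuringDegree :=
  {d | ∃ B : CStr L, Nonempty (A.dom ≃[L.toLang] B.dom) ∧ d = B.deg}

/-- The bi-embeddability spectrum. -/
def biSpec (A : CStr L) : Set TuringDegree :=
  {d | ∃ B : CStr L, Nonempty (A.dom ↪[L.toLang] B.dom) ∧
    Nonempty (B.dom ↪[L.toLang] A.dom) ∧ d = B.deg}

end Pool.Agent.Helper73.Spectra
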