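import Pool.Agent.Helper73.Spectra.Uniform

namespace Pool.Agent.Helper73.Spectra

open Encodable Denumerable FirstOrder

/-! ### a strictly descending sequence -/

/-- the columns of `Z` with index at least `k` -/
def tail (Z : ℕ → ℕ) (k : ℕ) (n : ℕ) : ℕ := if k ≤ n.unpair.1 then Z n else 0

theorem exists_descending : ∃ Z : ℕ → ℕ, ∀ k, ¬ Red (tail Z k) (tail Z (k + 1)) := by
  classical
  let Wit : CFun → ℕ → (ℕ → ℕ) → Prop := fun F k Z =>
    (∀ m x w y, F.1 (ini (tail Z (k + 1)) m, x, w) = some y → y = tail Z k x) ∧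
    ∀ x, ∃ m w, F.1 (ini (tail Z (k + 1)) m, x, w) = some (tail Z k x)
  let Req : CFun → ℕ → List ℕ → Prop := fun F k r => ∀ Z', ini Z' r.length = r → ¬ Wit F k Z'
  have hdense : ∀ F k q, ∃ r, q <+: r ∧ Req F k r := by
    intro F k q
    set n0 := Nat.pair k q.length with hn0
    have hn0' : q.length ≤ n0 := Nat.right_le_pair _ _
    by_cases hA : ∃ Z', ini Z' q.length = q ∧ ∃ m w y, F.1 (ini (tail Z' (k + 1)) m, n0, w) = some y
    · obtain ⟨Z', hZ', m, w, y, hy⟩ := hA
      let Z2 : ℕ → ℕ := Function.update Z' n0 (y + 1)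
      refine ⟨ini Z2 (max m (n0 + 1)), ?_, ?_⟩
      · have h1 : ini Z2 q.length = q := by
          conv_rhs => rw [← hZ']
          unfold ini
          apply List.map_congr_left
          intro i hi
          rw [List.mem_range] at hi
          exact Function.update_of_ne (by omega) _ _
        conv_lhs => rw [← h1]
        exact ini_isPre _ (by omega)
      · intro Z3 hZ3 hW
        rw [ini_length] at hZ3
        have h3 : ∀ i, i < max m (n0 + 1) → Z3 i = Z2 i := by
          intro i hi
          have h4 := congrArg (fun l : List ℕ => l.getD i 0) hZ3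
          rwa [ini_getD _ hi, ini_getD _ hi] at h4
        have h5 : ini (tail Z3 (k + 1)) m = ini (tail Z' (k + 1)) m := by
          unfold ini
          apply List.map_congr_left
          intro i hi
          rw [List.mem_range] at hi
          unfold tail
          by_cases hi2 : k + 1 ≤ i.unpair.1
          · rw [if_pos hi2, if_pos hi2, h3 i (lt_of_lt_of_le hi (le_max_left _ _))]
            refine Function.update_of_ne ?_ _ _
            rintro rfl
            rw [hn0, Nat.unpair_pair] at hi2
            simp at hi2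
          · rw [if_neg hi2, if_neg hi2]
        have h6 := hW.1 m n0 w y (by rw [h5]; exact hy)
        have h7 : tail Z3 k n0 = y + 1 := by
          unfold tail
          rw [if_pos (by rw [hn0, Nat.unpair_pair]), h3 n0 (lt_of_lt_of_le (Nat.lt_succ_self _)
            (le_max_right _ _))]
          exact Function.update_self _ _ _
        omega
    · refine ⟨q, List.prefix_refl _, fun Z' hZ' hW => hA ⟨Z', hZ', ?_⟩⟩
      obtain ⟨m, w, hmw⟩ := hW.2 n0
      exact ⟨m, w, _, hmw⟩
  let _ : Encodable (CFun × ℕ) := Encodable.ofCountable _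
  let R : ℕ → List ℕ → Prop := fun i r =>
    match decode (α := CFun × ℕ) i with
    | none => True
    | some x => Req x.1 x.2 r
  obtain ⟨Z, _, hZ⟩ := exists_generic (fun _ => True) trivial (fun _ _ _ _ => trivial) R (by
      intro i q _
      simp only [R]
      rcases decode (α := CFun × ℕ) i with _ | x
      · exact ⟨q, List.prefix_refl _, trivial, trivial⟩
      · obtain ⟨r, h1, h2⟩ := hdense x.1 x.2 q
        exact ⟨r, h1, trivial, h2⟩) (by
      intro q _
      exact ⟨q ++ [0], List.prefix_append _ _, trivial, by simp⟩)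
  refine ⟨Z, fun k hk => ?_⟩
  obtain ⟨F, hF, h1, h2⟩ := hk
  obtain ⟨m, hm⟩ := hZ (encode ((⟨F, hF⟩, k) : CFun × ℕ))
  simp only [R, encodek] at hm
  exact hm Z (by rw [ini_length]) ⟨h1, h2⟩

/-! ### the structures -/

/-- the language with one binary and infinitely many unary relation symbols -/
def L0 : CLang where
  rel i := if i = 0 then some 2 else some 1
  fn _ := none
  rel_computable := (Primrec.ite (Primrec.eq.comp Primrec.id (Primrec.const 0))
    (Primrec.const (some 2)) (Primrec.const (some 1))).to_comp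
  fn_computable := Computable.const none

/-- lists which agree with `Z` in the columns with index at least `i` -/
def agree (Z : ℕ → ℕ) (i : ℕ) (l : List ℕ) : Prop :=
  ∀ t ∈ List.range l.length, t.unpair.1 < i ∨ l.getD t 0 = Z t

/-- The universe consists of the pairs `(i, l)` such that `k ≤ i` and `l` agrees with `Z` in the
columns with index at least `i`. The binary relation says that the first entries are equal, the
unary relations give the second entry. -/
def Mstr (Z : ℕ → ℕ) (k : ℕ) : CStr L0 where
  dom := {a | k ≤ a.unpair.1 ∧ agree Z a.unpair.1 (ofNat (List ℕ) a.unpair.2)}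
  str :=
    { funMap := fun {n} F _ => absurd F.2 (by simp [L0])
      RelMap := fun {n} R x =>
        (R.1 = 0 ∧ ∀ i j : Fin n, (x i : ℕ).unpair.1 = (x j : ℕ).unpair.1) ∨
        (R.1 ≠ 0 ∧ ∀ i : Fin n, (x i : ℕ).unpair.2 + 1 = R.1) }

lemma agree_mono {Z : ℕ → ℕ} {i j : ℕ} (h : i ≤ j) {l : List ℕ} (hl : agree Z i l) :
    agree Z j l := by
  intro t ht
  rcases hl t ht with h1 | h1
  · exact Or.inl (lt_of_lt_of_le h1 h)
  · exact Or.inr h1

lemma agree_ini (Z : ℕ → ℕ) (i m : ℕ) : agree Z i (ini Z m) := by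
  intro t ht
  rw [ini_length, List.mem_range] at ht
  exact Or.inr (ini_getD _ ht)

/-- description of the diagram -/
def inDiag (P : ℕ → Prop) (n : ℕ) : Prop :=
  (∀ a ∈ params n, P a) ∧
  ((n.unpair.1.unpair.1 = 0 ∧ n.unpair.1.unpair.2 = 0 ∧ (params n).length = 1) ∨
   (n.unpair.1.unpair.1 = 1 ∧ n.unpair.1.unpair.2 = 0 ∧ (params n).length = 2 ∧
      ((params n).getD 0 0).unpair.1 = ((params n).getD 1 0).unpair.1) ∨
   (n.unpair.1.unpair.1 = 1 ∧ n.unpair.1.unpair.2 ≠ 0 ∧ (params n).length = 1 ∧
      ((params n).getD 0 0).unpair.2 + 1 = n.unpair.1.unpair.2))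

lemma code_eta (n : ℕ) : code n.unpair.1.unpair.1 n.unpair.1.unpair.2 (params n) = n := by
  simp [code, params]

@[simp] lemma code_fst (t i : ℕ) (ps : List ℕ) : (code t i ps).unpair.1.unpair.1 = t := by
  simp [code]

@[simp] lemma code_snd (t i : ℕ) (ps : List ℕ) : (code t i ps).unpair.1.unpair.2 = i := by
  simp [code]

lemma mem_diag_Mstr (Z : ℕ → ℕ) (k n : ℕ) :
    n ∈ (Mstr Z k).diag ↔ inDiag (fun a => a ∈ (Mstr Z k).dom) n := by
  constructor
  · rintro ((⟨a, ha, rfl⟩ | ⟨n, R, x, hR, rfl⟩) | ⟨n, F, x, rfl⟩)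
    · refine ⟨?_, Or.inl ?_⟩
      · simpa using ha
      · simp
    · have hR2 := R.2
      refine ⟨?_, ?_⟩
      · simp only [params_code, List.mem_ofFn]
        rintro a ⟨i, rfl⟩
        exact (x i).2
      · rcases hR with ⟨h1, h2⟩ | ⟨h1, h2⟩
        · have hn : n = 2 := by
            simp only [L0, h1, if_true, Option.some.injEq] at hR2
            exact hR2.symm
          subst hn
          refine Or.inr (Or.inl ?_)
          simp [h1, h2 0 1]
        · have hn : n = 1 := by
            simp only [L0, h1, if_false, Option.some.injEq] at hR2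
            exact hR2.symm
          subst hn
          refine Or.inr (Or.inr ?_)
          simp only [code_fst, code_snd, params_code]
          simp [h1, h2 0]
    · exact absurd F.2 (by simp [L0])
  · rintro ⟨h1, h2⟩
    rw [← code_eta n]
    generalize hps : params n = ps at h1 h2 ⊢
    rcases h2 with ⟨h2, h3, h4⟩ | ⟨h2, h3, h4, h5⟩ | ⟨h2, h3, h4, h5⟩
    · rw [h2, h3]
      obtain ⟨a, rfl⟩ := List.length_eq_one_iff.mp h4
      exact Or.inl (Or.inl ⟨a, h1 a (by simp), rfl⟩)
    · rw [h2, h3]
      obtain ⟨a, b, rfl⟩ := List.length_eq_two.mp h4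
      refine Or.inl (Or.inr ⟨2, ⟨0, by simp [L0]⟩, ![⟨a, h1 a (by simp)⟩, ⟨b, h1 b (by simp)⟩],
        Or.inl ⟨rfl, ?_⟩, ?_⟩)
      · simp only [List.getD_cons_zero, List.getD_cons_succ] at h5
        intro i j
        fin_cases i <;> fin_cases j <;> simp [h5]
      · simp [List.ofFn_succ]
    · rw [h2]
      obtain ⟨a, rfl⟩ := List.length_eq_one_iff.mp h4
      refine Or.inl (Or.inr ⟨1, ⟨n.unpair.1.unpair.2, by simp [L0, h3]⟩, ![⟨a, h1 a (by simp)⟩],
        Or.inr ⟨h3, ?_⟩, ?_⟩)
      · intro i
        fin_cases i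
        simpa using h5
      · simp [List.ofFn_succ]

/-! ### the diagram of `Mstr Z k` is computable from `tail Z k` -/

instance (i : ℕ) (l : List ℕ) (f : ℕ → ℕ) : Decidable (agree f i l) := by
  unfold agree; infer_instance

/-- membership in the universe, decided with the help of a finite part of the oracle -/
def domTest (k : ℕ) (τ : List ℕ) (a : ℕ) : Prop :=
  k ≤ a.unpair.1 ∧ agree (fun t => τ.getD t 0) a.unpair.1 (ofNat (List ℕ) a.unpair.2)

instance (k : ℕ) (τ : List ℕ) (a : ℕ) : Decidable (domTest k τ a) := by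
  unfold domTest; infer_instance

instance (P : ℕ → Prop) [DecidablePred P] (n : ℕ) : Decidable (inDiag P n) := by
  unfold inDiag; infer_instance

lemma primrec_domTest (k : ℕ) : PrimrecRel fun (a : ℕ) (τ : List ℕ) => domTest k τ a := by
  unfold domTest agree
  refine PrimrecPred.and ?_ ?_
  · exact Primrec.nat_le.comp (Primrec.const k) (Primrec.fst.comp (Primrec.unpair.comp Primrec.fst))
  · have h1 : PrimrecRel fun (t : ℕ) (x : ℕ × List ℕ) => t.unpair.1 < x.1.unpair.1 ∨
        (ofNat (List ℕ) x.1.unpair.2).getD t 0 = x.2.getD t 0 := by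
      refine PrimrecPred.or ?_ ?_
      · exact Primrec.nat_lt.comp (Primrec.fst.comp (Primrec.unpair.comp Primrec.fst))
          (Primrec.fst.comp (Primrec.unpair.comp (Primrec.fst.comp Primrec.snd)))
      · refine Primrec.eq.comp ((Primrec.list_getD 0).comp ?_ Primrec.fst)
          ((Primrec.list_getD 0).comp (Primrec.snd.comp Primrec.snd) Primrec.fst)
        exact (Primrec.ofNat (List ℕ)).comp (Primrec.snd.comp (Primrec.unpair.comp
          (Primrec.fst.comp Primrec.snd)))
    have h2 : Primrec fun x : ℕ × List ℕ => List.range (ofNat (List ℕ) x.1.unpair.2).length :=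
      Primrec.list_range.comp (Primrec.list_length.comp ((Primrec.ofNat (List ℕ)).comp
        (Primrec.snd.comp (Primrec.unpair.comp Primrec.fst))))
    exact h1.forall_mem_list.comp h2 Primrec.id

lemma primrec_inDiag (k : ℕ) :
    PrimrecPred fun x : List ℕ × ℕ => inDiag (domTest k x.1) x.2 := by
  have hn : Primrec fun x : List ℕ × ℕ => x.2 := Primrec.snd
  have ht : Primrec fun x : List ℕ × ℕ => x.2.unpair.1.unpair.1 :=
    Primrec.fst.comp (Primrec.unpair.comp (Primrec.fst.comp (Primrec.unpair.comp hn)))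
  have hi : Primrec fun x : List ℕ × ℕ => x.2.unpair.1.unpair.2 :=
    Primrec.snd.comp (Primrec.unpair.comp (Primrec.fst.comp (Primrec.unpair.comp hn)))
  have hp : Primrec fun x : List ℕ × ℕ => params x.2 := primrec_params.comp hn
  have hl : Primrec fun x : List ℕ × ℕ => (params x.2).length := Primrec.list_length.comp hp
  have hg : ∀ j, Primrec fun x : List ℕ × ℕ => (params x.2).getD j 0 := fun j =>
    (Primrec.list_getD 0).comp hp (Primrec.const j)
  unfold inDiag
  refine PrimrecPred.and ?_ (PrimrecPred.or ?_ (PrimrecPred.or ?_ ?_))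
  · exact (primrec_domTest k).forall_mem_list.comp hp Primrec.fst
  · exact (Primrec.eq.comp ht (Primrec.const 0)).and ((Primrec.eq.comp hi (Primrec.const 0)).and
      (Primrec.eq.comp hl (Primrec.const 1)))
  · exact (Primrec.eq.comp ht (Primrec.const 1)).and ((Primrec.eq.comp hi (Primrec.const 0)).and
      ((Primrec.eq.comp hl (Primrec.const 2)).and (Primrec.eq.comp
        (Primrec.fst.comp (Primrec.unpair.comp (hg 0)))
        (Primrec.fst.comp (Primrec.unpair.comp (hg 1))))))
  · exact (Primrec.eq.comp ht (Primrec.const 1)).and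
      ((Primrec.eq.comp hi (Primrec.const 0)).not.and
      ((Primrec.eq.comp hl (Primrec.const 1)).and (Primrec.eq.comp
        (Primrec.succ.comp (Primrec.snd.comp (Primrec.unpair.comp (hg 0)))) hi)))

lemma domTest_iff (Z : ℕ → ℕ) (k M a : ℕ) (ha : a ≤ M) :
    domTest k (ini (tail Z k) M) a ↔ a ∈ (Mstr Z k).dom := by
  refine and_congr_right fun h1 => ?_
  unfold agree
  refine forall₂_congr fun t ht => ?_
  by_cases h2 : t.unpair.1 < a.unpair.1
  · exact iff_of_true (Or.inl h2) (Or.inl h2)
  · have h3 : t < M := by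
      rw [List.mem_range] at ht
      have h4 := Encodable.length_le_encode (ofNat (List ℕ) a.unpair.2)
      rw [Denumerable.encode_ofNat] at h4
      have h5 := Nat.unpair_right_le a
      omega
    beta_reduce
    rw [ini_getD _ h3]
    unfold tail
    rw [if_pos (by omega)]

lemma inDiag_congr {P Q : ℕ → Prop} {n : ℕ} (h : ∀ a ∈ params n, (P a ↔ Q a)) :
    inDiag P n ↔ inDiag Q n :=
  and_congr_left fun _ => forall₂_congr h

theorem red_Mstr (Z : ℕ → ℕ) (k : ℕ) : Red (chi (Mstr Z k).diag) (tail Z k) := by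
  classical
  have key : ∀ M n, n ≤ M → (if inDiag (domTest k (ini (tail Z k) M)) n then 1 else 0) =
      chi (Mstr Z k).diag n := by
    intro M n hn
    have h1 : inDiag (domTest k (ini (tail Z k) M)) n ↔ n ∈ (Mstr Z k).diag := by
      rw [mem_diag_Mstr]
      exact inDiag_congr fun a ha => domTest_iff Z k M a ((mem_params_le ha).trans hn)
    unfold chi
    by_cases h : n ∈ (Mstr Z k).diag
    · rw [Set.indicator_of_mem h, if_pos (h1.mpr h)]
    · rw [Set.indicator_of_notMem h, if_neg (fun h' => h (h1.mp h'))]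
  refine ⟨fun z => if z.2.1 ≤ z.1.length then
    some (if inDiag (domTest k z.1) z.2.1 then 1 else 0) else none, ?_, ?_, ?_⟩
  · refine (Primrec.ite ?_ (Primrec.option_some.comp (Primrec.ite ?_ (Primrec.const 1)
      (Primrec.const 0))) (Primrec.const none)).to_comp
    · exact Primrec.nat_le.comp (Primrec.fst.comp Primrec.snd)
        (Primrec.list_length.comp Primrec.fst)
    · exact (primrec_inDiag k).comp (Primrec.pair Primrec.fst (Primrec.fst.comp Primrec.snd))
  · intro m x w y hy
    simp only [ini_length] at hy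
    by_cases hx : x ≤ m
    · rw [if_pos hx, key m x hx] at hy
      exact (Option.some.inj hy).symm
    · rw [if_neg hx] at hy
      cases hy
  · intro x
    refine ⟨x, 0, ?_⟩
    simp only [ini_length, le_refl, if_true]
    rw [key x x le_rfl]

/-! ### every structure bi-embeddable with `Mstr Z 0` computes some `tail Z j` -/

lemma chi_eq_one {S : Set ℕ} {n : ℕ} : chi S n = 1 ↔ n ∈ S := by
  unfold chi
  constructor
  · intro h
    by_contra hc
    rw [Set.indicator_of_notMem hc] at h
    cases h
  · intro h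
    exact Set.indicator_of_mem h _

theorem red_of_biEmb (Z : ℕ → ℕ) (B : CStr L0) (e : (Mstr Z 0).dom ↪[L0.toLang] B.dom)
    (g : B.dom ↪[L0.toLang] (Mstr Z 0).dom) : ∃ j, Red (tail Z j) (chi B.diag) := by
  classical
  have hdom : ∀ m, Nat.pair 0 (encode (ini Z m)) ∈ (Mstr Z 0).dom := by
    intro m
    refine ⟨Nat.zero_le _, ?_⟩
    simp only [Nat.unpair_pair, ofNat_encode]
    exact agree_ini Z 0 m
  let a0 : (Mstr Z 0).dom := ⟨_, hdom 0⟩
  let c0 : B.dom := e a0
  let j : ℕ := ((g c0 : (Mstr Z 0).dom) : ℕ).unpair.1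
  let ρ : ℕ → ℕ := fun b => if hb : b ∈ B.dom then ((g ⟨b, hb⟩ : (Mstr Z 0).dom) : ℕ) else 0
  let ρ' : ℕ → ℕ := fun a => if ha : a ∈ (Mstr Z 0).dom then ((e ⟨a, ha⟩ : B.dom) : ℕ) else 0
  have hρ : ∀ b : B.dom, ρ b = g b := fun b => by simp only [ρ, dif_pos b.2]
  have hρ' : ∀ a : (Mstr Z 0).dom, ρ' a = e a := fun a => by simp only [ρ', dif_pos a.2]
  -- soundness
  have hsound : ∀ b p, code 1 0 [(c0 : ℕ), b] ∈ B.diag → code 1 (p + 1) [b] ∈ B.diag →
      agree Z j (ofNat (List ℕ) p) := by
    intro b p h1 h2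
    have h3 := mem_diag_renF g ρ hρ h1
    have h4 := mem_diag_renF g ρ hρ h2
    rw [renF_code, mem_diag_Mstr] at h3 h4
    simp only [inDiag, params_code, code_fst, code_snd] at h3 h4
    obtain ⟨h5, h6⟩ := h3
    obtain ⟨h7, h8⟩ := h4
    have h9 : (ρ c0).unpair.1 = (ρ b).unpair.1 := by simpa using h6
    have h10 : (ρ b).unpair.2 = p := by simpa using h8
    have h11 : ρ b ∈ (Mstr Z 0).dom := by simpa using h7
    have h12 := h11.2
    rw [h10, ← h9, hρ] at h12
    exact h12
  -- completeness
  have hcomp : ∀ m, ∃ b, code 1 0 [(c0 : ℕ), b] ∈ B.diag ∧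
      code 1 (encode (ini Z m) + 1) [b] ∈ B.diag := by
    intro m
    refine ⟨e ⟨_, hdom m⟩, ?_, ?_⟩
    · have h1 : code 1 0 [(a0 : ℕ), Nat.pair 0 (encode (ini Z m))] ∈ (Mstr Z 0).diag := by
        rw [mem_diag_Mstr]
        refine ⟨?_, Or.inr (Or.inl ?_)⟩
        · simp only [params_code, List.mem_cons, List.not_mem_nil, or_false]
          rintro a (rfl | rfl)
          · exact a0.2
          · exact hdom m
        · simp [a0]
      have h2 := mem_diag_renF e ρ' hρ' h1
      rw [renF_code] at h2
      simp only [List.map_cons, List.map_nil] at h2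
      rw [hρ' a0, hρ' ⟨_, hdom m⟩] at h2
      exact h2
    · have h1 : code 1 (encode (ini Z m) + 1) [Nat.pair 0 (encode (ini Z m))] ∈
          (Mstr Z 0).diag := by
        rw [mem_diag_Mstr]
        refine ⟨?_, Or.inr (Or.inr ?_)⟩
        · simp only [params_code, List.mem_singleton]
          rintro a rfl
          exact hdom m
        · simp
      have h2 := mem_diag_renF e ρ' hρ' h1
      rw [renF_code] at h2
      simp only [List.map_cons, List.map_nil] at h2
      rw [hρ' ⟨_, hdom m⟩] at h2
      exact h2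
  refine ⟨j, fun z =>
    if z.1[(code 1 0 [(c0 : ℕ), z.2.2.unpair.1])]? = some 1 ∧
      z.1[(code 1 (z.2.2.unpair.2 + 1) [z.2.2.unpair.1])]? = some 1 ∧
      z.2.1 < (ofNat (List ℕ) z.2.2.unpair.2).length
    then some (if j ≤ z.2.1.unpair.1 then (ofNat (List ℕ) z.2.2.unpair.2).getD z.2.1 0 else 0)
    else none, ?_, ?_, ?_⟩
  · have hx : Primrec fun z : List ℕ × ℕ × ℕ => z.2.1 := Primrec.fst.comp Primrec.snd
    have hb : Primrec fun z : List ℕ × ℕ × ℕ => z.2.2.unpair.1 :=
      Primrec.fst.comp (Primrec.unpair.comp (Primrec.snd.comp Primrec.snd))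
    have hp : Primrec fun z : List ℕ × ℕ × ℕ => z.2.2.unpair.2 :=
      Primrec.snd.comp (Primrec.unpair.comp (Primrec.snd.comp Primrec.snd))
    have hl : Primrec fun z : List ℕ × ℕ × ℕ => ofNat (List ℕ) z.2.2.unpair.2 :=
      (Primrec.ofNat (List ℕ)).comp hp
    refine (Primrec.ite ?_ (Primrec.option_some.comp (Primrec.ite ?_ ?_
      (Primrec.const 0))) (Primrec.const none)).to_comp
    · refine PrimrecPred.and ?_ (PrimrecPred.and ?_ ?_)
      · refine Primrec.eq.comp (Primrec.list_getElem?.comp Primrec.fst ?_) (Primrec.const _)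
        unfold code
        exact Primrec₂.natPair.comp (Primrec.const _) (Primrec.encode.comp
          (Primrec.list_cons.comp (Primrec.const _) (Primrec.list_cons.comp hb (Primrec.const []))))
      · refine Primrec.eq.comp (Primrec.list_getElem?.comp Primrec.fst ?_) (Primrec.const _)
        unfold code
        exact Primrec₂.natPair.comp (Primrec₂.natPair.comp (Primrec.const _)
          (Primrec.succ.comp hp)) (Primrec.encode.comp
          (Primrec.list_cons.comp hb (Primrec.const [])))
      · exact Primrec.nat_lt.comp hx (Primrec.list_length.comp hl)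
    · exact Primrec.nat_le.comp (Primrec.const j) (Primrec.fst.comp (Primrec.unpair.comp hx))
    · exact (Primrec.list_getD 0).comp hl hx
  · intro m x w y hy
    simp only at hy
    split_ifs at hy with h1 h2
    · obtain ⟨h3, h4, h5⟩ := h1
      have hget : ∀ c, (ini (chi B.diag) m)[c]? = some 1 → c ∈ B.diag := by
        intro c hc
        rcases lt_or_ge c m with h | h
        · rw [ini_getElem? _ h] at hc
          exact chi_eq_one.mp (Option.some.inj hc)
        · rw [ini_getElem?_ge _ h] at hc
          cases hc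
      have h6 := hsound _ _ (hget _ h3) (hget _ h4) x (List.mem_range.mpr h5)
      have h7 : (ofNat (List ℕ) w.unpair.2).getD x 0 = Z x := by
        rcases h6 with h6 | h6
        · omega
        · exact h6
      rw [h7] at hy
      unfold tail
      rw [if_pos h2]
      exact (Option.some.inj hy).symm
    · unfold tail
      rw [if_neg h2]
      exact (Option.some.inj hy).symm
  · intro x
    obtain ⟨b, h1, h2⟩ := hcomp (x + 1)
    refine ⟨max (code 1 0 [(c0 : ℕ), b] + 1) (code 1 (encode (ini Z (x + 1)) + 1) [b] + 1),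
      Nat.pair b (encode (ini Z (x + 1))), ?_⟩
    simp only [Nat.unpair_pair, ofNat_encode]
    rw [ini_getElem? _ (lt_of_lt_of_le (Nat.lt_succ_self _) (le_max_left _ _)),
      ini_getElem? _ (lt_of_lt_of_le (Nat.lt_succ_self _) (le_max_right _ _)),
      chi_eq_one.mpr h1, chi_eq_one.mpr h2]
    simp only [ini_length, Nat.lt_succ_self, and_self, if_true, ini_getD Z (Nat.lt_succ_self x)]
    rfl

end Pool.Agent.Helper73.Spectra
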