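import Pool.Agent.Helper73.Spectra.Rel

namespace Pool.Agent.Helper73.Spectra

open Encodable Denumerable FirstOrder

/-! ### generic sequences -/

theorem exists_generic (Good : List ℕ → Prop) (h0 : Good [])
    (hpre : ∀ q r, Good r → q <+: r → Good q) (Req : ℕ → List ℕ → Prop)
    (hdense : ∀ i q, Good q → ∃ r, q <+: r ∧ Good r ∧ Req i r)
    (hlen : ∀ q, Good q → ∃ r, q <+: r ∧ Good r ∧ q.length < r.length) :
    ∃ π : ℕ → ℕ, (∀ m, Good (ini π m)) ∧ ∀ i, ∃ m, Req i (ini π m) := by
  choose! D hD1 hD2 hD3 using hdense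
  choose! E hE1 hE2 hE3 using hlen
  let s : ℕ → List ℕ := fun n => n.rec [] (fun k q => E (D k q))
  have hs0 : s 0 = [] := rfl
  have hs : ∀ n, s (n + 1) = E (D n (s n)) := fun n => rfl
  have hgood : ∀ n, Good (s n) := by
    intro n
    induction n with
    | zero => exact h0
    | succ n ih => rw [hs]; exact hE2 _ (hD2 _ _ ih)
  have hstep : ∀ n, s n <+: s (n + 1) := by
    intro n
    rw [hs]
    exact (hD1 n _ (hgood n)).trans (hE1 _ (hD2 _ _ (hgood n)))
  have hmono : ∀ n k, n ≤ k → s n <+: s k := by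
    intro n k hk
    induction hk with
    | refl => exact List.prefix_refl _
    | step _ ih => exact ih.trans (hstep _)
  have hlen : ∀ n, n ≤ (s n).length := by
    intro n
    induction n with
    | zero => exact Nat.zero_le _
    | succ n ih =>
      rw [hs]
      have h1 := hE3 _ (hD2 n _ (hgood n))
      have h2 := (hD1 n _ (hgood n)).length_le
      omega
  let π : ℕ → ℕ := fun n => (s (n + 1)).getD n 0
  have hπ : ∀ k j, j < (s k).length → (s k)[j]? = some (π j) := by
    intro k j hj
    have h1 : j < (s (j + 1)).length := hlen (j + 1)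
    have h2 : (s k)[j]? = (s (j + 1))[j]? := by
      rcases le_total k (j + 1) with h | h
      · obtain ⟨t, ht⟩ := hmono _ _ h
        rw [← ht, List.getElem?_append_left hj]
      · obtain ⟨t, ht⟩ := hmono _ _ h
        rw [← ht, List.getElem?_append_left h1]
    rw [h2, List.getElem?_eq_getElem h1]
    simp only [π, List.getD_eq_getElem _ _ h1]
  have hini : ∀ k r, r <+: s k → ini π r.length = r := by
    intro k r hr
    apply List.ext_getElem?
    intro j
    rcases lt_or_ge j r.length with h | h
    · rw [ini_getElem? _ h]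
      obtain ⟨t, ht⟩ := hr
      have h1 : j < (s k).length := by rw [← ht, List.length_append]; omega
      have h2 := hπ k j h1
      rw [← ht, List.getElem?_append_left h] at h2
      exact h2.symm
    · rw [ini_getElem?_ge _ h, List.getElem?_eq_none h]
  refine ⟨π, fun m => ?_, fun i => ?_⟩
  · have h1 : (s m).take m <+: s m := List.take_prefix _ _
    have h2 := hini m _ h1
    rw [List.length_take, min_eq_left (hlen m)] at h2
    rw [h2]
    exact hpre _ _ (hgood m) h1
  · have h1 : D i (s i) <+: s (i + 1) := by rw [hs]; exact hE1 _ (hD2 _ _ (hgood i))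
    refine ⟨(D i (s i)).length, ?_⟩
    rw [hini (i + 1) _ h1]
    exact hD3 _ _ (hgood i)

/-! ### renaming of parameters -/

/-- the list of parameters of a coded fact -/
def params (n : ℕ) : List ℕ := ofNat (List ℕ) n.unpair.2

/-- renaming of parameters by a function -/
def renF (π : ℕ → ℕ) (n : ℕ) : ℕ := Nat.pair n.unpair.1 (encode ((params n).map π))

/-- renaming of parameters by a list -/
def ren (q : List ℕ) (n : ℕ) : ℕ := renF (fun a => q.getD a 0) n

@[simp] lemma params_code (t i : ℕ) (ps : List ℕ) : params (code t i ps) = ps := by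
  simp [params, code]

@[simp] lemma renF_code (π : ℕ → ℕ) (t i : ℕ) (ps : List ℕ) :
    renF π (code t i ps) = code t i (ps.map π) := by
  simp [renF, code, params]

lemma params_renF (π : ℕ → ℕ) (n : ℕ) : params (renF π n) = (params n).map π := by
  simp [params, renF]

lemma le_encode_of_mem : ∀ (l : List ℕ) (a : ℕ), a ∈ l → a ≤ encode l
  | [], a, h => by cases h
  | b :: l, a, h => by
    rw [Encodable.encode_list_cons]
    rcases List.mem_cons.mp h with rfl | h
    · exact (Nat.left_le_pair _ _).trans (Nat.le_succ _)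
    · exact (le_encode_of_mem l a h).trans ((Nat.right_le_pair _ _).trans (Nat.le_succ _))

lemma mem_params_le {n a : ℕ} (h : a ∈ params n) : a ≤ n := by
  have h1 := le_encode_of_mem _ _ h
  rw [params, Denumerable.encode_ofNat] at h1
  exact h1.trans (Nat.unpair_right_le n)

lemma renF_congr {π π' : ℕ → ℕ} {n : ℕ} (h : ∀ a ∈ params n, π a = π' a) :
    renF π n = renF π' n := by
  unfold renF
  rw [List.map_congr_left h]

lemma renF_renF (π π' : ℕ → ℕ) (n : ℕ) : renF π (renF π' n) = renF (fun a => π (π' a)) n := by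
  simp only [renF, params, Nat.unpair_pair, ofNat_encode, List.map_map]
  rfl

lemma renF_id (n : ℕ) : renF (fun a => a) n = n := by
  simp [renF, params]

variable {L : CLang}

lemma params_of_mem_diag {A : CStr L} {n : ℕ} (h : n ∈ A.diag) : ∀ a ∈ params n, a ∈ A.dom := by
  rcases h with (⟨a, ha, rfl⟩ | ⟨n, R, x, _, rfl⟩) | ⟨n, F, x, rfl⟩
  · simpa using ha
  · simp only [params_code, List.mem_ofFn]
    rintro a ⟨i, rfl⟩
    exact (x i).2
  · simp only [params_code, List.mem_cons, List.mem_ofFn]
    rintro a (rfl | ⟨i, rfl⟩)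
    · exact Subtype.property _
    · exact (x i).2

lemma mem_diag_renF {A B : CStr L} (h : A.dom ↪[L.toLang] B.dom) (π : ℕ → ℕ)
    (hπ : ∀ a : A.dom, π a = h a) {n : ℕ} (hn : n ∈ A.diag) : renF π n ∈ B.diag := by
  rcases hn with (⟨a, ha, rfl⟩ | ⟨n, R, x, hR, rfl⟩) | ⟨n, F, x, rfl⟩
  · refine Or.inl (Or.inl ⟨π a, ?_, by simp⟩)
    rw [hπ ⟨a, ha⟩]
    exact (h ⟨a, ha⟩).2
  · refine Or.inl (Or.inr ⟨n, R, h ∘ x, (h.map_rel R x).mpr hR, ?_⟩)
    rw [renF_code, List.map_ofFn]
    congr 2
    funext i
    exact hπ (x i)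
  · refine Or.inr ⟨n, F, h ∘ x, ?_⟩
    rw [renF_code, List.map_cons, List.map_ofFn]
    congr 2
    · rw [← h.map_fun F x]; exact hπ _
    · congr 1
      funext i
      exact hπ (x i)

lemma mem_diag_iff {A B : CStr L} (h : A.dom ≃[L.toLang] B.dom) (π : ℕ → ℕ)
    (hπ : ∀ a : A.dom, π a = h a) {n : ℕ} (hn : ∀ a ∈ params n, a ∈ A.dom) :
    n ∈ A.diag ↔ renF π n ∈ B.diag := by
  classical
  constructor
  · exact mem_diag_renF h.toEmbedding π hπ
  · intro h1
    let π' : ℕ → ℕ := fun b => if hb : b ∈ B.dom then (h.symm ⟨b, hb⟩ : ℕ) else 0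
    have h2 := mem_diag_renF h.symm.toEmbedding π' (fun b => by
      simp only [π', dif_pos b.2]; rfl) h1
    have h3 : renF π' (renF π n) = n := by
      rw [renF_renF]
      conv_rhs => rw [← renF_id n]
      apply renF_congr
      intro a ha
      have h4 := hπ ⟨a, hn a ha⟩
      simp only at h4
      rw [h4]
      simp only [π']
      rw [dif_pos (h ⟨a, hn a ha⟩).2]
      simp
    rwa [h3] at h2

/-! ### finite information about copies -/

open Classical in
/-- the initial segment of the diagram of a copy determined by the finite sequence `q` -/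
noncomputable def bits (S : Set ℕ) (q : List ℕ) : List ℕ :=
  (List.range q.length).map fun n =>
    if (∀ p ∈ params n, q.idxOf (q.getD p 0) = p) ∧ ren q n ∈ S then 1 else 0

@[simp] lemma bits_length (S : Set ℕ) (q : List ℕ) : (bits S q).length = q.length := by
  simp [bits]

/-- the first occurrences in the sequence `π` -/
def firstOcc (π : ℕ → ℕ) : Set ℕ := {n | ∀ m < n, π m ≠ π n}

lemma exists_firstOcc (π : ℕ → ℕ) (n : ℕ) : ∃ m ∈ firstOcc π, π m = π n := by
  classical
  have hex : ∃ m, π m = π n := ⟨n, rfl⟩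
  refine ⟨Nat.find hex, fun k hk hkk => ?_, Nat.find_spec hex⟩
  exact Nat.find_min hex hk (hkk.trans (Nat.find_spec hex))

lemma firstOcc_injOn (π : ℕ → ℕ) : Set.InjOn π (firstOcc π) := by
  intro a ha b hb hab
  rcases lt_trichotomy a b with h | h | h
  · exact absurd hab (hb a h)
  · exact h
  · exact absurd hab.symm (ha b h)

/-- the bijection from the first occurrences to the universe -/
noncomputable def occEquiv (D : Set ℕ) (π : ℕ → ℕ) (h1 : ∀ n, π n ∈ D) (h2 : ∀ b ∈ D, ∃ n, π n = b) :
    firstOcc π ≃ D :=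
  Equiv.ofBijective (fun a => ⟨π a, h1 a⟩) (by
    constructor
    · intro a b hab
      exact Subtype.ext (firstOcc_injOn π a.2 b.2 (congrArg Subtype.val hab))
    · rintro ⟨b, hb⟩
      obtain ⟨n, rfl⟩ := h2 b hb
      obtain ⟨m, hm, hmn⟩ := exists_firstOcc π n
      exact ⟨⟨m, hm⟩, Subtype.ext hmn⟩)

/-- the copy of `B` determined by an enumeration of its universe -/
noncomputable def copy (B : CStr L) (π : ℕ → ℕ) (h1 : ∀ n, π n ∈ B.dom)
    (h2 : ∀ b ∈ B.dom, ∃ n, π n = b) : CStr L where
  dom := firstOcc π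
  str := (occEquiv B.dom π h1 h2).symm.inducedStructure

noncomputable def copyEquiv (B : CStr L) (π : ℕ → ℕ) (h1 : ∀ n, π n ∈ B.dom)
    (h2 : ∀ b ∈ B.dom, ∃ n, π n = b) : B.dom ≃[L.toLang] (copy B π h1 h2).dom :=
  (occEquiv B.dom π h1 h2).symm.inducedStructureEquiv

lemma copyEquiv_symm_apply (B : CStr L) (π : ℕ → ℕ) (h1 : ∀ n, π n ∈ B.dom)
    (h2 : ∀ b ∈ B.dom, ∃ n, π n = b) (a : (copy B π h1 h2).dom) :
    (((copyEquiv B π h1 h2).symm a : B.dom) : ℕ) = π a := rfl

lemma idxOf_getElem_le' : ∀ (l : List ℕ) (k : ℕ) (hk : k < l.length), l.idxOf l[k] ≤ k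
  | [], k, hk => by simp at hk
  | b :: l, 0, hk => by simp
  | b :: l, k + 1, hk => by
    have hk' : k < l.length := by simpa using hk
    rw [List.getElem_cons_succ]
    by_cases hb : b = l[k]
    · rw [← hb]; simp
    · rw [List.idxOf_cons_ne _ hb]
      exact Nat.succ_le_succ (idxOf_getElem_le' l k hk')

lemma idxOf_ini (π : ℕ → ℕ) {p m : ℕ} (hp : p < m) :
    (ini π m).idxOf (π p) = p ↔ p ∈ firstOcc π := by
  have hget : ∀ k, (hk : k < (ini π m).length) → (ini π m)[k] = π k := by
    intro k hk
    simp [ini]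
  constructor
  · intro h k hk hkp
    have h1 : (ini π m).idxOf (π p) ≤ k := by
      have hk' : k < (ini π m).length := by simp; omega
      rw [← hkp, ← hget k hk']
      exact idxOf_getElem_le' _ _ _
    omega
  · intro h
    have hmem : π p ∈ ini π m := by
      simp only [ini, List.mem_map, List.mem_range]
      exact ⟨p, hp, rfl⟩
    have h1 : (ini π m).idxOf (π p) < (ini π m).length := List.idxOf_lt_length_iff.mpr hmem
    have h2 : (ini π m)[(ini π m).idxOf (π p)] = π p := List.getElem_idxOf h1
    rw [hget] at h2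
    have h3 : (ini π m).idxOf (π p) ≤ p := by
      have hp' : p < (ini π m).length := by simpa using hp
      conv_lhs => rw [← hget p hp']
      exact idxOf_getElem_le' _ _ _
    rcases lt_or_eq_of_le h3 with h4 | h4
    · exact absurd h2 (h _ h4)
    · exact h4

lemma ini_chi_copy (B : CStr L) (π : ℕ → ℕ) (h1 : ∀ n, π n ∈ B.dom)
    (h2 : ∀ b ∈ B.dom, ∃ n, π n = b) (m : ℕ) :
    ini (chi (copy B π h1 h2).diag) m = bits B.diag (ini π m) := by
  classical
  simp only [bits, ini_length]
  unfold ini
  apply List.map_congr_left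
  intro n hn
  rw [List.mem_range] at hn
  have hocc : (∀ p ∈ params n, (ini π m).idxOf ((ini π m).getD p 0) = p) ↔
      ∀ p ∈ params n, p ∈ firstOcc π := by
    constructor
    · intro h p hp
      have hpm : p < m := lt_of_le_of_lt (mem_params_le hp) hn
      have := h p hp
      rw [ini_getD π hpm] at this
      exact (idxOf_ini π hpm).mp this
    · intro h p hp
      have hpm : p < m := lt_of_le_of_lt (mem_params_le hp) hn
      rw [ini_getD π hpm]
      exact (idxOf_ini π hpm).mpr (h p hp)
  have hren : ren (ini π m) n = renF π n := by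
    apply renF_congr
    intro a ha
    exact ini_getD π (lt_of_le_of_lt (mem_params_le ha) hn)
  have hiff : n ∈ (copy B π h1 h2).diag ↔
      (∀ p ∈ params n, (ini π m).idxOf ((ini π m).getD p 0) = p) ∧ ren (ini π m) n ∈ B.diag := by
    rw [hocc, hren]
    constructor
    · intro h
      have h3 := params_of_mem_diag h
      exact ⟨h3, (mem_diag_iff (copyEquiv B π h1 h2).symm π
        (fun a => (copyEquiv_symm_apply B π h1 h2 a).symm) h3).mp h⟩
    · rintro ⟨h3, h4⟩
      exact (mem_diag_iff (copyEquiv B π h1 h2).symm π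
        (fun a => (copyEquiv_symm_apply B π h1 h2 a).symm) h3).mpr h4
  unfold chi
  by_cases h : n ∈ (copy B π h1 h2).diag
  · have h' := hiff.mp h
    simp only [ini] at h'
    rw [Set.indicator_of_mem h, if_pos h']
  · have h' := fun hh => h (hiff.mpr hh)
    simp only [ini] at h'
    rw [Set.indicator_of_notMem h, if_neg h']

lemma bits_eq_of_equiv {B C : CStr L} (h : C.dom ≃[L.toLang] B.dom) (π : ℕ → ℕ)
    (hπ : ∀ a : C.dom, π a = h a) (d : List ℕ) (hd : ∀ a ∈ d, a ∈ C.dom) :
    bits C.diag d = bits B.diag (d.map π) := by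
  classical
  simp only [bits, List.length_map]
  apply List.map_congr_left
  intro n hn
  rw [List.mem_range] at hn
  have hlt : ∀ p ∈ params n, p < d.length := fun p hp => lt_of_le_of_lt (mem_params_le hp) hn
  have hinj : ∀ a ∈ d, ∀ b ∈ d, π a = π b → a = b := by
    intro a ha b hb hab
    have h1 := hπ ⟨a, hd a ha⟩
    have h2 := hπ ⟨b, hd b hb⟩
    simp only at h1 h2
    rw [h1, h2] at hab
    exact congrArg Subtype.val (h.injective (Subtype.ext hab))
  have hgetD : ∀ p, p < d.length → (d.map π).getD p 0 = π (d.getD p 0) := by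
    intro p hp
    rw [List.getD_eq_getElem _ _ (by simpa using hp), List.getD_eq_getElem _ _ hp, List.getElem_map]
  have hmem : ∀ p, p < d.length → d.getD p 0 ∈ d := by
    intro p hp
    rw [List.getD_eq_getElem _ _ hp]
    exact List.getElem_mem hp
  have hidx : ∀ a ∈ d, (d.map π).idxOf (π a) = d.idxOf a := by
    intro a ha
    clear hn hlt hgetD hmem hd
    induction d with
    | nil => cases ha
    | cons b d ih =>
      rw [List.map_cons]
      by_cases hb : b = a
      · subst hb
        simp
      · have hb' : π b ≠ π a := fun hh => hb (hinj b (by simp) a ha hh)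
        have ha' : a ∈ d := by
          rcases List.mem_cons.mp ha with h1 | h1
          · exact absurd h1.symm hb
          · exact h1
        rw [List.idxOf_cons_ne _ hb', List.idxOf_cons_ne _ hb]
        rw [ih (fun x hx y hy => hinj x (List.mem_cons_of_mem _ hx) y (List.mem_cons_of_mem _ hy)) ha']
  have hA : (∀ p ∈ params n, d.idxOf (d.getD p 0) = p) ↔
      (∀ p ∈ params n, (d.map π).idxOf ((d.map π).getD p 0) = p) := by
    refine forall₂_congr fun p hp => ?_
    rw [hgetD p (hlt p hp), hidx _ (hmem p (hlt p hp))]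
  have hB : ren d n ∈ C.diag ↔ ren (d.map π) n ∈ B.diag := by
    have h1 : ∀ a ∈ params (ren d n), a ∈ C.dom := by
      unfold ren
      rw [params_renF]
      intro a ha
      rw [List.mem_map] at ha
      obtain ⟨p, hp, rfl⟩ := ha
      exact hd _ (hmem p (hlt p hp))
    rw [mem_diag_iff h π hπ h1]
    have h2 : renF π (ren d n) = ren (d.map π) n := by
      unfold ren
      rw [renF_renF]
      apply renF_congr
      intro p hp
      exact (hgetD p (hlt p hp)).symm
    rw [h2]
  simp only [hA, hB]

/-! ### the search functional -/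

/-- the side conditions of the search: all entries of `d` are in the universe, `m` is not too big
and the oracle is long enough -/
def sideCond (d τ : List ℕ) (m : ℕ) : Prop :=
  (∀ a ∈ d, τ[(code 0 0 [a])]? = some 1) ∧ m ≤ d.length ∧ ∀ n ∈ List.range m, ren d n < τ.length

instance (d τ : List ℕ) (m : ℕ) : Decidable (sideCond d τ m) := by
  unfold sideCond; infer_instance

/-- the finite diagram read off from the oracle -/
def obits (d τ : List ℕ) (m : ℕ) : List ℕ :=
  (List.range m).map fun n =>
    if (∀ p ∈ params n, d.idxOf (d.getD p 0) = p) ∧ τ.getD (ren d n) 0 = 1 then 1 else 0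

lemma primrec_params : Primrec params :=
  (Primrec.ofNat (List ℕ)).comp (Primrec.snd.comp Primrec.unpair)

lemma primrec_ren : Primrec₂ ren := by
  unfold ren renF
  refine Primrec₂.natPair.comp (Primrec.fst.comp (Primrec.unpair.comp Primrec.snd)) ?_
  refine Primrec.encode.comp (Primrec.list_map (primrec_params.comp Primrec.snd) ?_)
  exact (Primrec.list_getD 0).comp (Primrec.fst.comp Primrec.fst) Primrec.snd

lemma primrec_code1 : Primrec fun a : ℕ => code 0 0 [a] := by
  unfold code
  exact Primrec₂.natPair.comp (Primrec.const _) (Primrec.encode.comp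
    (Primrec.list_cons.comp Primrec.id (Primrec.const [])))

lemma primrec_sideCond : PrimrecPred fun x : (List ℕ × List ℕ) × ℕ => sideCond x.1.1 x.1.2 x.2 := by
  unfold sideCond
  refine PrimrecPred.and ?_ (PrimrecPred.and ?_ ?_)
  · have h1 : PrimrecRel fun (a : ℕ) (τ : List ℕ) => τ[(code 0 0 [a])]? = some 1 :=
      Primrec.eq.comp (Primrec.list_getElem?.comp Primrec.snd (primrec_code1.comp Primrec.fst))
        (Primrec.const (some 1))
    exact h1.forall_mem_list.comp (Primrec.fst.comp Primrec.fst) (Primrec.snd.comp Primrec.fst)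
  · exact Primrec.nat_le.comp Primrec.snd (Primrec.list_length.comp (Primrec.fst.comp Primrec.fst))
  · have h1 : PrimrecRel fun (n : ℕ) (x : List ℕ × List ℕ) => ren x.1 n < x.2.length :=
      Primrec.nat_lt.comp (primrec_ren.comp (Primrec.fst.comp Primrec.snd) Primrec.fst)
        (Primrec.list_length.comp (Primrec.snd.comp Primrec.snd))
    exact h1.forall_mem_list.comp (Primrec.list_range.comp Primrec.snd) Primrec.fst

lemma primrec_obits : Primrec fun x : (List ℕ × List ℕ) × ℕ => obits x.1.1 x.1.2 x.2 := by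
  unfold obits
  refine Primrec.list_map (Primrec.list_range.comp Primrec.snd) ?_
  refine Primrec.ite ?_ (Primrec.const 1) (Primrec.const 0)
  refine PrimrecPred.and ?_ ?_
  · have h1 : PrimrecRel fun (p : ℕ) (d : List ℕ) => d.idxOf (d.getD p 0) = p := by
      refine Primrec.eq.comp (Primrec.list_idxOf.comp ?_ Primrec.snd) Primrec.fst
      exact (Primrec.list_getD 0).comp Primrec.snd Primrec.fst
    exact h1.forall_mem_list.comp (primrec_params.comp Primrec.snd)
      (Primrec.fst.comp (Primrec.fst.comp Primrec.fst))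
  · refine Primrec.eq.comp ((Primrec.list_getD 0).comp ?_ ?_) (Primrec.const 1)
    · exact Primrec.snd.comp (Primrec.fst.comp Primrec.fst)
    · exact primrec_ren.comp (Primrec.fst.comp (Primrec.fst.comp Primrec.fst)) Primrec.snd

/-- the functional which searches for a condition in the copy -/
def search (c : List ℕ) (F : List ℕ × ℕ × ℕ → Option ℕ) (z : List ℕ × ℕ × ℕ) : Option ℕ :=
  let d := c ++ ofNat (List ℕ) z.2.2.unpair.1
  let m := z.2.2.unpair.2.unpair.1
  if sideCond d z.1 m then F (obits d z.1 m, z.2.1, z.2.2.unpair.2.unpair.2) else none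

lemma computable_search (c : List ℕ) {F : List ℕ × ℕ × ℕ → Option ℕ} (hF : Computable F) :
    Computable (search c F) := by
  have hd : Primrec fun z : List ℕ × ℕ × ℕ => c ++ ofNat (List ℕ) z.2.2.unpair.1 :=
    Primrec.list_append.comp (Primrec.const c) ((Primrec.ofNat (List ℕ)).comp
      (Primrec.fst.comp (Primrec.unpair.comp (Primrec.snd.comp Primrec.snd))))
  have hm : Primrec fun z : List ℕ × ℕ × ℕ => z.2.2.unpair.2.unpair.1 :=
    Primrec.fst.comp (Primrec.unpair.comp (Primrec.snd.comp (Primrec.unpair.comp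
      (Primrec.snd.comp Primrec.snd))))
  have hw : Primrec fun z : List ℕ × ℕ × ℕ => z.2.2.unpair.2.unpair.2 :=
    Primrec.snd.comp (Primrec.unpair.comp (Primrec.snd.comp (Primrec.unpair.comp
      (Primrec.snd.comp Primrec.snd))))
  have hall : Primrec fun z : List ℕ × ℕ × ℕ =>
      ((c ++ ofNat (List ℕ) z.2.2.unpair.1, z.1), z.2.2.unpair.2.unpair.1) :=
    Primrec.pair (Primrec.pair hd Primrec.fst) hm
  have h1 : Computable fun z : List ℕ × ℕ × ℕ =>
      F (obits (c ++ ofNat (List ℕ) z.2.2.unpair.1) z.1 z.2.2.unpair.2.unpair.1, z.2.1,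
        z.2.2.unpair.2.unpair.2) :=
    hF.comp (Primrec.pair (primrec_obits.comp hall)
      (Primrec.pair (Primrec.fst.comp Primrec.snd) hw)).to_comp
  have h2 : Primrec fun z : List ℕ × ℕ × ℕ =>
      decide (sideCond (c ++ ofNat (List ℕ) z.2.2.unpair.1) z.1 z.2.2.unpair.2.unpair.1) :=
    (primrec_sideCond.comp hall).decide
  refine (Computable.cond h2.to_comp h1 (Computable.const none)).of_eq fun z => ?_
  unfold search
  by_cases h : sideCond (c ++ ofNat (List ℕ) z.2.2.unpair.1) z.1 z.2.2.unpair.2.unpair.1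
  · simp [h]
  · simp [h]

lemma mem_dom_iff_chi (C : CStr L) (a : ℕ) : a ∈ C.dom ↔ chi C.diag (code 0 0 [a]) = 1 := by
  unfold chi
  constructor
  · intro h
    rw [Set.indicator_of_mem]
    exact Or.inl (Or.inl ⟨a, h, rfl⟩)
  · intro h
    have h1 : code 0 0 [a] ∈ C.diag := by
      by_contra hc
      rw [Set.indicator_of_notMem hc] at h
      cases h
    exact params_of_mem_diag h1 a (by simp)

lemma sideCond_ini {C : CStr L} {d : List ℕ} {M m : ℕ}
    (h : sideCond d (ini (chi C.diag) M) m) : (∀ a ∈ d, a ∈ C.dom) ∧ m ≤ d.length ∧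
      obits d (ini (chi C.diag) M) m = (bits C.diag d).take m := by
  classical
  obtain ⟨h1, h2, h3⟩ := h
  refine ⟨fun a ha => ?_, h2, ?_⟩
  · have h4 := h1 a ha
    rcases lt_or_ge (code 0 0 [a]) M with h5 | h5
    · rw [ini_getElem? _ h5] at h4
      exact (mem_dom_iff_chi C a).mpr (Option.some.inj h4)
    · rw [ini_getElem?_ge _ h5] at h4
      cases h4
  · unfold obits bits
    rw [← List.map_take, List.take_range, min_eq_left h2]
    apply List.map_congr_left
    intro n hn
    have h4 := h3 n hn
    rw [ini_length] at h4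
    rw [ini_getD _ h4]
    unfold chi
    by_cases h5 : ren d n ∈ C.diag
    · rw [Set.indicator_of_mem h5]; simp [h5]
    · rw [Set.indicator_of_notMem h5]; simp [h5]

lemma exists_sideCond (C : CStr L) {d : List ℕ} (hd : ∀ a ∈ d, a ∈ C.dom) {m : ℕ}
    (hm : m ≤ d.length) : ∃ M, sideCond d (ini (chi C.diag) M) m := by
  have h1 : ∃ M1, ∀ a ∈ d, code 0 0 [a] < M1 := by
    clear hm hd
    induction d with
    | nil => exact ⟨0, by simp⟩
    | cons b d ih =>
      obtain ⟨M, hM⟩ := ih
      refine ⟨max M (code 0 0 [b] + 1), ?_⟩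
      intro a ha
      rcases List.mem_cons.mp ha with rfl | h
      · exact lt_of_lt_of_le (Nat.lt_succ_self _) (le_max_right _ _)
      · exact lt_of_lt_of_le (hM a h) (le_max_left _ _)
  have h2 : ∃ M2, ∀ n ∈ List.range m, ren d n < M2 := by
    generalize List.range m = l
    induction l with
    | nil => exact ⟨0, by simp⟩
    | cons b l ih =>
      obtain ⟨M, hM⟩ := ih
      refine ⟨max M (ren d b + 1), ?_⟩
      intro a ha
      rcases List.mem_cons.mp ha with rfl | h
      · exact lt_of_lt_of_le (Nat.lt_succ_self _) (le_max_right _ _)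
      · exact lt_of_lt_of_le (hM a h) (le_max_left _ _)
  obtain ⟨M1, hM1⟩ := h1
  obtain ⟨M2, hM2⟩ := h2
  refine ⟨max M1 M2, fun a ha => ?_, hm, fun n hn => ?_⟩
  · rw [ini_getElem? _ (lt_of_lt_of_le (hM1 a ha) (le_max_left _ _))]
    rw [(mem_dom_iff_chi C a).mp (hd a ha)]
  · rw [ini_length]
    exact lt_of_lt_of_le (hM2 n hn) (le_max_right _ _)

end Pool.Agent.Helper73.Spectra
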