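import Pool.Agent.Helper73.Spectra.Example

namespace Pool.Agent.Helper73.Spectra

open Encodable Denumerable FirstOrder

lemma red_trans {f g h : ℕ → ℕ} (h1 : Red f g) (h2 : Red g h) : Red f h :=
  red_iff.mp (TuringReducible.trans (red_iff.mpr h1) (red_iff.mpr h2))

lemma red_of_deg_eq {L L' : CLang} {A : CStr L} {B : CStr L'} (h : A.deg = B.deg) :
    Red (chi A.diag) (chi B.diag) := by
  have h1 := Quotient.exact h
  exact red_iff.mp h1.1

/-- the inclusion embedding -/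
def inclEmb (Z : ℕ → ℕ) (k : ℕ) : (Mstr Z k).dom ↪[L0.toLang] (Mstr Z 0).dom where
  toFun a := ⟨a, Nat.zero_le _, a.2.2⟩
  inj' a b h := Subtype.ext (congrArg (fun x : (Mstr Z 0).dom => (x : ℕ)) h)
  map_fun' F _ := absurd F.2 (by simp [L0])
  map_rel' _ _ := Iff.rfl

/-- the shift embedding -/
def shiftEmb (Z : ℕ → ℕ) (k : ℕ) : (Mstr Z 0).dom ↪[L0.toLang] (Mstr Z k).dom where
  toFun a := ⟨Nat.pair ((a : ℕ).unpair.1 + k) (a : ℕ).unpair.2, by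
    refine ⟨?_, ?_⟩
    · simp only [Nat.unpair_pair]; omega
    · simp only [Nat.unpair_pair]
      exact agree_mono (Nat.le_add_right _ _) a.2.2⟩
  inj' a b h := by
    have h1 := congrArg (fun x : (Mstr Z k).dom => (x : ℕ)) h
    simp only [Nat.pair_eq_pair] at h1
    apply Subtype.ext
    rw [← Nat.pair_unpair (a : ℕ), ← Nat.pair_unpair (b : ℕ), h1.2,
      Nat.add_right_cancel h1.1]
  map_fun' F _ := absurd F.2 (by simp [L0])
  map_rel' R x := by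
    show ((R.1 = 0 ∧ _) ∨ (R.1 ≠ 0 ∧ _)) ↔ ((R.1 = 0 ∧ _) ∨ (R.1 ≠ 0 ∧ _))
    simp

theorem main : ∃ (L : CLang) (A : CStr L), ∀ (L' : CLang) (B : CStr L'), biSpec A ≠ isoSpec B := by
  obtain ⟨Z, hZ⟩ := exists_descending
  refine ⟨L0, Mstr Z 0, fun L' B heq => ?_⟩
  have h1 : ∀ C : CStr L', Nonempty (B.dom ≃[L'.toLang] C.dom) →
      ∃ j, Red (tail Z j) (chi C.diag) := by
    intro C hC
    have h2 : C.deg ∈ biSpec (Mstr Z 0) := by
      rw [heq]; exact ⟨C, hC, rfl⟩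
    obtain ⟨D, ⟨e⟩, ⟨g⟩, hD⟩ := h2
    obtain ⟨j, hj⟩ := red_of_biEmb Z D e g
    exact ⟨j, red_trans hj (red_of_deg_eq hD.symm)⟩
  obtain ⟨j, hj⟩ := uniform_of_all (tail Z) h1
  have h3 : (Mstr Z (j + 1)).deg ∈ isoSpec B := by
    rw [← heq]
    exact ⟨Mstr Z (j + 1), ⟨shiftEmb Z (j + 1)⟩, ⟨inclEmb Z (j + 1)⟩, rfl⟩
  obtain ⟨C, hC, hCd⟩ := h3
  exact hZ j (red_trans (hj C hC) (red_trans (red_of_deg_eq hCd.symm) (red_Mstr Z (j + 1))))

end Pool.Agent.Helper73.Spectra
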