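import Pool.Agent.Helper73.Spectra.Defs

namespace Pool.Agent.Helper73.Spectra

open Encodable Denumerable

/-- the list of the first `m` values of `g` -/
def ini (g : ℕ → ℕ) (m : ℕ) : List ℕ := (List.range m).map g

@[simp] lemma ini_length (g : ℕ → ℕ) (m : ℕ) : (ini g m).length = m := by simp [ini]

lemma ini_succ (g : ℕ → ℕ) (m : ℕ) : ini g (m + 1) = ini g m ++ [g m] := by
  simp [ini, List.range_succ]

lemma ini_getElem? (g : ℕ → ℕ) {m x : ℕ} (h : x < m) : (ini g m)[x]? = some (g x) := by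
  simp [ini, h]

lemma ini_getElem?_ge (g : ℕ → ℕ) {m x : ℕ} (h : m ≤ x) : (ini g m)[x]? = none := by
  simp [ini, h]

lemma ini_getD (g : ℕ → ℕ) {m x d : ℕ} (h : x < m) : (ini g m).getD x d = g x := by
  rw [List.getD_eq_getElem?_getD, ini_getElem? g h]; rfl

lemma ini_take (g : ℕ → ℕ) {m k : ℕ} (h : k ≤ m) : (ini g m).take k = ini g k := by
  simp only [ini, ← List.map_take, List.take_range]
  congr 2
  omega

/-- Reducibility by computable functionals on initial segments, with a search parameter. -/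
def Red (f g : ℕ → ℕ) : Prop :=
  ∃ F : List ℕ × ℕ × ℕ → Option ℕ, Computable F ∧
    (∀ m x w y, F (ini g m, x, w) = some y → y = f x) ∧
    ∀ x, ∃ m w, F (ini g m, x, w) = some (f x)

/-! ### from Turing reducibility to `Red` -/

/-- A use-monotone approximation of `f` relative to `g`. -/
structure Approx (g : ℕ → ℕ) (f : ℕ →. ℕ) (G : List ℕ × ℕ →. ℕ) : Prop where
  part : Partrec G
  mono : ∀ l l' x y, y ∈ G (l, x) → l <+: l' → y ∈ G (l', x)
  corr : ∀ x y, y ∈ f x ↔ ∃ m, y ∈ G (ini g m, x)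

lemma ini_isPre (g : ℕ → ℕ) {m k : ℕ} (h : m ≤ k) : ini g m <+: ini g k := by
  rw [← ini_take g h]; exact List.take_prefix _ _

lemma Approx.up {g : ℕ → ℕ} {f : ℕ →. ℕ} {G : List ℕ × ℕ →. ℕ} (h : Approx g f G) {m k x y : ℕ}
    (hm : y ∈ G (ini g m, x)) (hk : m ≤ k) : y ∈ G (ini g k, x) :=
  h.mono _ _ _ _ hm (ini_isPre g hk)

lemma approx_total {g : ℕ → ℕ} {f : ℕ → ℕ} (hf : Computable f) :
    Approx g (f : ℕ →. ℕ) (fun p => Part.some (f p.2)) where
  part := (hf.comp Computable.snd).partrec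
  mono l l' x y h _ := h
  corr x y := by simp

lemma approx_oracle (g : ℕ → ℕ) : Approx g (g : ℕ →. ℕ) (fun p => (p.1[p.2]? : Part ℕ)) where
  part := (Computable.list_getElem?.comp Computable.fst Computable.snd).ofOption
  mono l l' x y h hl := by
    obtain ⟨t, rfl⟩ := hl
    rw [Part.mem_ofOption] at h ⊢
    simp only [Option.mem_def] at h ⊢
    rw [List.getElem?_append_left]
    · exact h
    · by_contra hcon
      rw [List.getElem?_eq_none (not_lt.mp hcon)] at h
      cases h
  corr x y := by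
    constructor
    · intro h
      refine ⟨x + 1, ?_⟩
      simp only [PFun.coe_val, Part.mem_some_iff] at h
      rw [Part.mem_ofOption, ini_getElem? g (Nat.lt_succ_self x), h]
      rfl
    · rintro ⟨m, hm⟩
      rw [Part.mem_ofOption] at hm
      rcases lt_or_ge x m with h | h
      · rw [ini_getElem? g h] at hm
        simp only [Option.mem_def, Option.some.injEq] at hm
        simp [hm]
      · rw [ini_getElem?_ge g h] at hm
        cases hm

lemma mem_pair_iff {a b : Part ℕ} {y : ℕ} :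
    y ∈ (Nat.pair <$> a <*> b) ↔ ∃ u ∈ a, ∃ v ∈ b, Nat.pair u v = y := by
  simp only [Seq.seq, Part.map_eq_map, Part.mem_bind_iff, Part.mem_map_iff]
  constructor
  · rintro ⟨_, ⟨u, hu, rfl⟩, v, hv, rfl⟩
    exact ⟨u, hu, v, hv, rfl⟩
  · rintro ⟨u, hu, v, hv, rfl⟩
    exact ⟨_, ⟨u, hu, rfl⟩, v, hv, rfl⟩

lemma approx_pair {g : ℕ → ℕ} {f1 f2 : ℕ →. ℕ} {G1 G2 : List ℕ × ℕ →. ℕ}
    (h1 : Approx g f1 G1) (h2 : Approx g f2 G2) :
    Approx g (fun n => (Nat.pair <$> f1 n <*> f2 n))
      (fun p => (G1 p).bind fun a => (G2 p).map fun b => Nat.pair a b) where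
  part := h1.part.bind ((h2.part.comp Computable.fst).map
    (Primrec₂.natPair.to_comp.comp (Computable.snd.comp Computable.fst) Computable.snd))
  mono l l' x y h hl := by
    simp only [Part.mem_bind_iff, Part.mem_map_iff] at h ⊢
    obtain ⟨a, ha, b, hb, rfl⟩ := h
    exact ⟨a, h1.mono _ _ _ _ ha hl, b, h2.mono _ _ _ _ hb hl, rfl⟩
  corr x y := by
    rw [mem_pair_iff]
    simp only [Part.mem_bind_iff, Part.mem_map_iff]
    constructor
    · rintro ⟨u, hu, v, hv, rfl⟩
      obtain ⟨m1, hm1⟩ := (h1.corr x u).mp hu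
      obtain ⟨m2, hm2⟩ := (h2.corr x v).mp hv
      exact ⟨max m1 m2, u, h1.up hm1 (le_max_left _ _), v, h2.up hm2 (le_max_right _ _), rfl⟩
    · rintro ⟨m, u, hu, v, hv, rfl⟩
      exact ⟨u, (h1.corr x u).mpr ⟨m, hu⟩, v, (h2.corr x v).mpr ⟨m, hv⟩, rfl⟩

lemma approx_comp {g : ℕ → ℕ} {f1 f2 : ℕ →. ℕ} {G1 G2 : List ℕ × ℕ →. ℕ}
    (h1 : Approx g f1 G1) (h2 : Approx g f2 G2) :
    Approx g (fun n => f2 n >>= f1) (fun p => (G2 p).bind fun a => G1 (p.1, a)) where
  part := h2.part.bind (h1.part.comp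
    (Computable.pair (Computable.fst.comp Computable.fst) Computable.snd))
  mono l l' x y h hl := by
    simp only [Part.mem_bind_iff] at h ⊢
    obtain ⟨a, ha, hb⟩ := h
    exact ⟨a, h2.mono _ _ _ _ ha hl, h1.mono _ _ _ _ hb hl⟩
  corr x y := by
    refine (Part.mem_bind_iff (f := f2 x) (g := f1)).trans ?_
    have e : ∀ m, y ∈ ((G2 (ini g m, x)).bind fun a => G1 (ini g m, a)) ↔
        ∃ u ∈ G2 (ini g m, x), y ∈ G1 (ini g m, u) := fun m => Part.mem_bind_iff
    refine Iff.trans ?_ (exists_congr e).symm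
    constructor
    · rintro ⟨u, hu, hv⟩
      obtain ⟨m1, hm1⟩ := (h2.corr x u).mp hu
      obtain ⟨m2, hm2⟩ := (h1.corr u y).mp hv
      exact ⟨max m1 m2, u, h2.up hm1 (le_max_left _ _), h1.up hm2 (le_max_right _ _)⟩
    · rintro ⟨m, u, hu, hv⟩
      exact ⟨u, (h2.corr x u).mpr ⟨m, hu⟩, (h1.corr u y).mpr ⟨m, hv⟩⟩

lemma approx_prec {g : ℕ → ℕ} {f1 f2 : ℕ →. ℕ} {G1 G2 : List ℕ × ℕ →. ℕ}
    (h1 : Approx g f1 G1) (h2 : Approx g f2 G2) :
    Approx g (fun p => let (a, n) := Nat.unpair p
        n.rec (f1 a) fun y IH => do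
          let i ← IH
          f2 (Nat.pair a (Nat.pair y i)))
      (fun p => (p.2.unpair.2).rec (G1 (p.1, p.2.unpair.1)) fun y IH => IH.bind fun i =>
        G2 (p.1, Nat.pair p.2.unpair.1 (Nat.pair y i))) where
  part := by
    refine Partrec.nat_rec (f := fun p : List ℕ × ℕ => p.2.unpair.2)
      (g := fun p : List ℕ × ℕ => G1 (p.1, p.2.unpair.1))
      (h := fun (p : List ℕ × ℕ) (q : ℕ × ℕ) =>
        G2 (p.1, Nat.pair p.2.unpair.1 (Nat.pair q.1 q.2))) ?_ ?_ ?_
    · exact Computable.snd.comp (Computable.unpair.comp Computable.snd)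
    · exact h1.part.comp (Computable.pair Computable.fst
        (Computable.fst.comp (Computable.unpair.comp Computable.snd)))
    · refine h2.part.comp (Computable.pair (Computable.fst.comp Computable.fst) ?_)
      refine Primrec₂.natPair.to_comp.comp ?_ ?_
      · exact Computable.fst.comp (Computable.unpair.comp (Computable.snd.comp Computable.fst))
      · exact Primrec₂.natPair.to_comp.comp (Computable.fst.comp Computable.snd)
          (Computable.snd.comp Computable.snd)
  mono l l' x y h hl := by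
    simp only at h ⊢
    generalize (Nat.unpair x).2 = n at h ⊢
    induction n generalizing y with
    | zero => exact h1.mono _ _ _ _ h hl
    | succ n ih =>
      simp only [Part.mem_bind_iff] at h ⊢
      obtain ⟨i, hi, hy⟩ := h
      exact ⟨i, ih i hi, h2.mono _ _ _ _ hy hl⟩
  corr x y := by
    simp only
    generalize (Nat.unpair x).2 = n
    induction n generalizing y with
    | zero => exact h1.corr _ _
    | succ n ih =>
      simp only [Part.bind_eq_bind, Part.mem_bind_iff]
      constructor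
      · rintro ⟨i, hi, hy⟩
        obtain ⟨m1, hm1⟩ := (ih i).mp hi
        obtain ⟨m2, hm2⟩ := (h2.corr _ y).mp hy
        refine ⟨max m1 m2, i, ?_, h2.up hm2 (le_max_right _ _)⟩
        have key : ∀ n y, y ∈ (Nat.rec (G1 (ini g m1, x.unpair.1)) (fun y IH => IH.bind fun i =>
            G2 (ini g m1, Nat.pair x.unpair.1 (Nat.pair y i))) n : Part ℕ) →
            y ∈ (Nat.rec (G1 (ini g (max m1 m2), x.unpair.1)) (fun y IH => IH.bind fun i =>
            G2 (ini g (max m1 m2), Nat.pair x.unpair.1 (Nat.pair y i))) n : Part ℕ) := by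
          intro n
          induction n with
          | zero => intro y h; exact h1.up h (le_max_left _ _)
          | succ n ih' =>
            intro y h
            simp only [Part.mem_bind_iff] at h ⊢
            obtain ⟨i, hi, hy⟩ := h
            exact ⟨i, ih' i hi, h2.up hy (le_max_left _ _)⟩
        exact key n i hm1
      · rintro ⟨m, i, hi, hy⟩
        exact ⟨i, (ih i).mpr ⟨m, hi⟩, (h2.corr _ y).mpr ⟨m, hy⟩⟩

lemma approx_rfind {g : ℕ → ℕ} {f : ℕ →. ℕ} {G : List ℕ × ℕ →. ℕ}
    (h : Approx g f G) :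
    Approx g (fun a => Nat.rfind fun n => (fun m => m = 0) <$> f (Nat.pair a n))
      (fun p => Nat.rfind fun n => (G (p.1, Nat.pair p.2 n)).map fun m => decide (m = 0)) where
  part := by
    refine Partrec.rfind (p := fun (p : List ℕ × ℕ) (n : ℕ) =>
      (G (p.1, Nat.pair p.2 n)).map fun m => decide (m = 0)) ?_
    refine Partrec.map (h.part.comp (Computable.pair (Computable.fst.comp Computable.fst)
      (Primrec₂.natPair.to_comp.comp (Computable.snd.comp Computable.fst) Computable.snd))) ?_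
    exact ((Primrec.eq.comp (Primrec.snd) (Primrec.const 0)).decide.to_comp)
  mono l l' x y hy hl := by
    have hy' := Nat.mem_rfind.mp hy
    refine Nat.mem_rfind.mpr ?_
    simp only [Part.mem_map_iff] at hy' ⊢
    obtain ⟨⟨m, hm, hm'⟩, h2⟩ := hy'
    refine ⟨⟨m, h.mono _ _ _ _ hm hl, hm'⟩, fun {k} hk => ?_⟩
    obtain ⟨m', hm1, hm2⟩ := h2 hk
    exact ⟨m', h.mono _ _ _ _ hm1 hl, hm2⟩
  corr x y := by
    have e1 : (y ∈ Nat.rfind fun n => (fun m => decide (m = 0)) <$> f (Nat.pair x n)) ↔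
        (∃ u, u ∈ f (Nat.pair x y) ∧ decide (u = 0) = true) ∧
        ∀ k, k < y → ∃ v, v ∈ f (Nat.pair x k) ∧ decide (v = 0) = false := by
      refine Nat.mem_rfind.trans (and_congr (Part.mem_map_iff _) ?_)
      exact ⟨fun h k hk => (Part.mem_map_iff _).mp (h hk),
        fun h k hk => (Part.mem_map_iff _).mpr (h k hk)⟩
    have e2 : ∀ m, (y ∈ Nat.rfind fun n => (G (ini g m, Nat.pair x n)).map
        fun m => decide (m = 0)) ↔
        (∃ u, u ∈ G (ini g m, Nat.pair x y) ∧ decide (u = 0) = true) ∧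
        ∀ k, k < y → ∃ v, v ∈ G (ini g m, Nat.pair x k) ∧ decide (v = 0) = false := by
      intro m
      refine Nat.mem_rfind.trans (and_congr (Part.mem_map_iff _) ?_)
      exact ⟨fun h k hk => (Part.mem_map_iff _).mp (h hk),
        fun h k hk => (Part.mem_map_iff _).mpr (h k hk)⟩
    refine e1.trans (Iff.trans ?_ (exists_congr e2).symm)
    constructor
    · rintro ⟨⟨u, hu, hu'⟩, h2⟩
      obtain ⟨m0, hm0⟩ := (h.corr _ u).mp hu
      have h3 : ∀ k, k < y → ∃ m v, v ∈ G (ini g m, Nat.pair x k) ∧ (decide (v = 0)) = false := by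
        intro k hk
        obtain ⟨v, hv, hv'⟩ := h2 k hk
        obtain ⟨m, hm⟩ := (h.corr _ v).mp hv
        exact ⟨m, v, hm, hv'⟩
      have h4 : ∃ M, ∀ k, k < y → ∃ v, v ∈ G (ini g M, Nat.pair x k) ∧
          (decide (v = 0)) = false := by
        clear hu hu' hm0 h2 e1 e2
        induction y with
        | zero => exact ⟨0, fun k hk => absurd hk (Nat.not_lt_zero _)⟩
        | succ y ih =>
          obtain ⟨M, hM⟩ := ih (fun k hk => h3 k (Nat.lt_succ_of_lt hk))
          obtain ⟨m, v, hv, hv'⟩ := h3 y (Nat.lt_succ_self y)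
          refine ⟨max M m, fun k hk => ?_⟩
          rcases Nat.lt_succ_iff_lt_or_eq.mp hk with hk' | rfl
          · obtain ⟨v', h5, h6⟩ := hM k hk'
            exact ⟨v', h.up h5 (le_max_left _ _), h6⟩
          · exact ⟨v, h.up hv (le_max_right _ _), hv'⟩
      obtain ⟨M, hM⟩ := h4
      refine ⟨max m0 M, ⟨u, h.up hm0 (le_max_left _ _), hu'⟩, fun k hk => ?_⟩
      obtain ⟨v, hv, hv'⟩ := hM k hk
      exact ⟨v, h.up hv (le_max_right _ _), hv'⟩
    · rintro ⟨m, ⟨u, hu, hu'⟩, h2⟩
      refine ⟨⟨u, (h.corr _ u).mpr ⟨m, hu⟩, hu'⟩, fun k hk => ?_⟩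
      obtain ⟨v, hv, hv'⟩ := h2 k hk
      exact ⟨v, (h.corr _ v).mpr ⟨m, hv⟩, hv'⟩

theorem exists_approx {g : ℕ → ℕ} {f : ℕ →. ℕ} (hf : Nat.RecursiveIn {(g : ℕ →. ℕ)} f) :
    ∃ G, Approx g f G := by
  induction hf with
  | zero => exact ⟨_, approx_total (f := fun _ => 0) (Computable.const 0)⟩
  | succ => exact ⟨_, approx_total Computable.succ⟩
  | left => exact ⟨_, approx_total (Computable.fst.comp Computable.unpair)⟩
  | right => exact ⟨_, approx_total (Computable.snd.comp Computable.unpair)⟩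
  | oracle h hh =>
    rw [Set.mem_singleton_iff] at hh
    subst hh
    exact ⟨_, approx_oracle g⟩
  | pair _ _ ih1 ih2 =>
    obtain ⟨G1, h1⟩ := ih1
    obtain ⟨G2, h2⟩ := ih2
    exact ⟨_, approx_pair h1 h2⟩
  | comp _ _ ih1 ih2 =>
    obtain ⟨G1, h1⟩ := ih1
    obtain ⟨G2, h2⟩ := ih2
    exact ⟨_, approx_comp h1 h2⟩
  | prec _ _ ih1 ih2 =>
    obtain ⟨G1, h1⟩ := ih1
    obtain ⟨G2, h2⟩ := ih2
    exact ⟨_, approx_prec h1 h2⟩
  | rfind _ ih =>
    obtain ⟨G, h⟩ := ih
    exact ⟨_, approx_rfind h⟩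

theorem red_of_recursiveIn {f g : ℕ → ℕ} (h : Nat.RecursiveIn {(g : ℕ →. ℕ)} (f : ℕ →. ℕ)) :
    Red f g := by
  obtain ⟨G, hG⟩ := exists_approx h
  have hp : Nat.Partrec fun n => Part.bind (decode (α := List ℕ × ℕ) n) fun a => (G a).map encode :=
    hG.part
  obtain ⟨c, hc⟩ := Nat.Partrec.Code.exists_code.mp hp
  have hev : ∀ l x y, y ∈ c.eval (encode (l, x)) ↔ y ∈ G (l, x) := by
    intro l x y
    rw [hc]
    simp only [encodek, Part.coe_some, Part.bind_some, Part.mem_map_iff]
    constructor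
    · rintro ⟨a, ha, rfl⟩; exact ha
    · intro h; exact ⟨y, h, rfl⟩
  refine ⟨fun p => Nat.Partrec.Code.evaln p.2.2 c (encode (p.1, p.2.1)), ?_, ?_, ?_⟩
  · refine (Nat.Partrec.Code.primrec_evaln.comp (Primrec.pair (Primrec.pair
      (Primrec.snd.comp Primrec.snd) (Primrec.const c)) (Primrec.encode.comp
      (Primrec.pair Primrec.fst (Primrec.fst.comp Primrec.snd))))).to_comp
  · intro m x w y hy
    have h1 : y ∈ c.eval (encode (ini g m, x)) := Nat.Partrec.Code.evaln_sound hy
    rw [hev] at h1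
    have h2 := (hG.corr x y).mpr ⟨m, h1⟩
    exact Part.mem_some_iff.mp h2
  · intro x
    have h1 : f x ∈ (f : ℕ →. ℕ) x := Part.mem_some _
    obtain ⟨m, hm⟩ := (hG.corr x (f x)).mp h1
    rw [← hev, Nat.Partrec.Code.evaln_complete] at hm
    obtain ⟨w, hw⟩ := hm
    exact ⟨m, w, hw⟩

/-! ### from `Red` to Turing reducibility -/

/-- `a` is recursive in `g`, for total functions -/
def TIn (g a : ℕ → ℕ) : Prop := Nat.RecursiveIn {(g : ℕ →. ℕ)} (a : ℕ →. ℕ)

lemma TIn.of_computable {g a : ℕ → ℕ} (h : Computable a) : TIn g a :=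
  (Partrec.nat_iff.mp h.partrec).recursiveIn

lemma TIn.oracle (g : ℕ → ℕ) : TIn g g := Nat.RecursiveIn.oracle _ rfl

lemma TIn.comp {g a b : ℕ → ℕ} (ha : TIn g a) (hb : TIn g b) : TIn g (fun n => a (b n)) := by
  have := Nat.RecursiveIn.comp ha hb
  refine this.of_eq fun n => ?_
  exact Part.bind_some (b n) (a : ℕ →. ℕ)

lemma TIn.pair {g a b : ℕ → ℕ} (ha : TIn g a) (hb : TIn g b) :
    TIn g (fun n => Nat.pair (a n) (b n)) := by
  have := Nat.RecursiveIn.pair ha hb
  refine this.of_eq fun n => ?_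
  show (Nat.pair <$> Part.some (a n) <*> Part.some (b n)) = Part.some (Nat.pair (a n) (b n))
  simp [Seq.seq]

lemma TIn.left {g a : ℕ → ℕ} (ha : TIn g a) : TIn g (fun n => (a n).unpair.1) :=
  TIn.comp (a := fun n => n.unpair.1) (.of_computable (Computable.fst.comp Computable.unpair)) ha

lemma TIn.right {g a : ℕ → ℕ} (ha : TIn g a) : TIn g (fun n => (a n).unpair.2) :=
  TIn.comp (a := fun n => n.unpair.2) (.of_computable (Computable.snd.comp Computable.unpair)) ha

lemma TIn.ini (g : ℕ → ℕ) : TIn g (fun m => encode (ini g m)) := by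
  have app : Computable (fun n : ℕ => encode (ofNat (List ℕ) n.unpair.1 ++ [n.unpair.2])) := by
    refine Computable.encode.comp ((Computable.list_append).comp ?_ ?_)
    · exact (Computable.ofNat (List ℕ)).comp (Computable.fst.comp Computable.unpair)
    · exact Computable.list_cons.comp (Computable.snd.comp Computable.unpair) (Computable.const [])
  have h1 : TIn g (fun _ => encode ([] : List ℕ)) := .of_computable (Computable.const _)
  have idc : TIn g (fun n => n) := .of_computable Computable.id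
  have h2 : TIn g (fun n => encode (ofNat (List ℕ) n.unpair.2.unpair.2 ++
      [g n.unpair.2.unpair.1])) := by
    have := TIn.comp (.of_computable app) (TIn.pair (idc.right.right)
      (TIn.comp (TIn.oracle g) (idc.right.left)))
    simpa using this
  have h3 := Nat.RecursiveIn.prec h1 h2
  have h4 := Nat.RecursiveIn.comp h3 (TIn.pair (g := g) (.of_computable (Computable.const 0)) idc)
  refine h4.of_eq fun n => ?_
  show (Part.some (Nat.pair 0 n)).bind _ = Part.some (encode (Spectra.ini g n))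
  rw [Part.bind_some]
  simp only [Nat.unpair_pair]
  induction n with
  | zero => rfl
  | succ n ih =>
    simp only
    rw [ih]
    show (Part.some (encode (Spectra.ini g n))).bind _ = _
    rw [Part.bind_some]
    simp [ini_succ]

theorem recursiveIn_of_red {f g : ℕ → ℕ} (h : Red f g) :
    Nat.RecursiveIn {(g : ℕ →. ℕ)} (f : ℕ →. ℕ) := by
  obtain ⟨F, hF, hs, hc⟩ := h
  have idc : TIn g (fun n => n) := .of_computable Computable.id
  have hF' : Computable (fun n : ℕ => encode (F (ofNat (List ℕ) n.unpair.1,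
      n.unpair.2.unpair.1, n.unpair.2.unpair.2))) := by
    refine Computable.encode.comp (hF.comp (Computable.pair ?_ (Computable.pair ?_ ?_)))
    · exact (Computable.ofNat (List ℕ)).comp (Computable.fst.comp Computable.unpair)
    · exact Computable.fst.comp (Computable.unpair.comp (Computable.snd.comp Computable.unpair))
    · exact Computable.snd.comp (Computable.unpair.comp (Computable.snd.comp Computable.unpair))
  -- `K (x, (m, w))`
  have hK : TIn g (fun n => encode (F (ini g n.unpair.2.unpair.1, n.unpair.1,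
      n.unpair.2.unpair.2))) := by
    have := TIn.comp (.of_computable hF') (TIn.pair (TIn.comp (TIn.ini g) idc.right.left)
      (TIn.pair idc.left idc.right.right))
    simpa using this
  set K : ℕ → ℕ := fun n => encode (F (ini g n.unpair.2.unpair.1, n.unpair.1,
      n.unpair.2.unpair.2)) with hKdef
  have hH : TIn g (fun n => 1 - K n) :=
    TIn.comp (a := fun n => 1 - n)
      (.of_computable (Primrec.nat_sub.comp (Primrec.const 1) Primrec.id).to_comp) hK
  have hR := Nat.RecursiveIn.rfind hH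
  have hP : TIn g (fun n => (K n).pred) :=
    TIn.comp (a := Nat.pred) (.of_computable Computable.pred) hK
  have h1 := Nat.RecursiveIn.comp hP (Nat.RecursiveIn.pair idc hR)
  refine h1.of_eq fun x => ?_
  -- the search succeeds
  obtain ⟨m, w, hmw⟩ := hc x
  have hex : ∃ v, K (Nat.pair x v) ≠ 0 := by
    refine ⟨Nat.pair m w, ?_⟩
    simp [hKdef, hmw]
  classical
  let v := Nat.find hex
  have hv : K (Nat.pair x v) ≠ 0 := Nat.find_spec hex
  have hv' : ∀ u < v, K (Nat.pair x u) = 0 := fun u hu => not_not.mp (Nat.find_min hex hu)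
  have h2 : (Nat.rfind fun n => (fun m => decide (m = 0)) <$>
      (Part.some (1 - K (Nat.pair x n)))) = Part.some v := by
    apply Part.eq_some_iff.mpr
    refine Nat.mem_rfind.mpr ⟨?_, fun {u} hu => ?_⟩
    · refine (Part.mem_map_iff _).mpr ⟨_, Part.mem_some _, ?_⟩
      simp only [decide_eq_true_eq]
      omega
    · refine (Part.mem_map_iff _).mpr ⟨_, Part.mem_some _, ?_⟩
      simp [hv' u hu]
  have h3 : (K (Nat.pair x v)).pred = f x := by
    have h4 : ∃ y, F (ini g v.unpair.1, x, v.unpair.2) = some y := by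
      rw [← Option.ne_none_iff_exists']
      intro hn
      apply hv
      simp [hKdef, hn]
    obtain ⟨y, hy⟩ := h4
    have h5 := hs _ _ _ _ hy
    simp [hKdef, hy, h5]
  show ((Nat.pair <$> Part.some x <*> (Nat.rfind fun n => (fun m => decide (m = 0)) <$>
      (Part.some (1 - K (Nat.pair x n)))))).bind _ = Part.some (f x)
  rw [h2]
  have h6 : (Nat.pair <$> Part.some x <*> Part.some v) = Part.some (Nat.pair x v) := by
    simp [Seq.seq]
  rw [h6]
  exact (Part.bind_some _ _).trans (congrArg Part.some h3)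

theorem red_iff {f g : ℕ → ℕ} :
    TuringReducible (f : ℕ →. ℕ) (g : ℕ →. ℕ) ↔ Red f g :=
  ⟨fun h => red_of_recursiveIn (RecursiveIn.iff_nat.mp h),
    fun h => RecursiveIn.iff_nat.mpr (recursiveIn_of_red h)⟩

end Pool.Agent.Helper73.Spectra
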