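import Pool.Agent.Helper73.Spectra.Forcing

namespace Pool.Agent.Helper73.Spectra

open Encodable Denumerable FirstOrder

/-- the type of computable functionals -/
def CFun : Type := {F : List ℕ × ℕ × ℕ → Option ℕ // Computable F}

instance : Countable CFun := by
  have hex : ∀ F : CFun, ∃ c : Nat.Partrec.Code, c.eval =
      fun n => Part.bind (decode (α := List ℕ × ℕ × ℕ) n) fun a => Part.some (encode (F.1 a)) := by
    intro F
    have h1 : Nat.Partrec fun n => Part.bind (decode (α := List ℕ × ℕ × ℕ) n)
        fun a => (Part.some (F.1 a)).map encode := F.2.partrec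
    obtain ⟨c, hc⟩ := Nat.Partrec.Code.exists_code.mp h1
    refine ⟨c, ?_⟩
    rw [hc]
    funext n
    congr 1
  choose c hc using hex
  refine Function.Injective.countable (f := c) ?_
  intro F G hFG
  apply Subtype.ext
  funext a
  have h1 : (c F).eval (encode a) = (c G).eval (encode a) := by rw [hFG]
  rw [hc, hc] at h1
  simp only [encodek, Part.coe_some, Part.bind_some] at h1
  exact Encodable.encode_injective (Part.some_injective h1)

variable {L : CLang}

lemma chi_eq_of_empty {B C : CStr L} (hB : B.dom = ∅) (h : C.dom ≃[L.toLang] B.dom) :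
    C.diag = B.diag := by
  have hC : ∀ a, a ∉ C.dom := by
    intro a ha
    exact Set.eq_empty_iff_forall_notMem.mp hB _ (h ⟨a, ha⟩).2
  have hB' : ∀ a, a ∉ B.dom := by
    intro a ha; rw [hB] at ha; exact ha
  have hren : ∀ n, params n = [] → renF (fun a => a) n = n := fun n _ => renF_id n
  ext n
  constructor
  · intro hn
    have h1 : ∀ a ∈ params n, a ∈ C.dom := params_of_mem_diag hn
    have h2 := (mem_diag_iff h (fun a => a) (fun a => absurd a.2 (hC _)) h1).mp hn
    rwa [renF_id] at h2
  · intro hn
    have h1 : ∀ a ∈ params n, a ∈ B.dom := params_of_mem_diag hn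
    have h2 := (mem_diag_iff h.symm (fun a => a) (fun a => absurd a.2 (hB' _)) h1).mp hn
    rwa [renF_id] at h2

/-- If every copy of `B` computes some member of the sequence `X`, then there is a single
member of the sequence which is computed by every copy of `B`. -/
theorem uniform_of_all {B : CStr L} (X : ℕ → ℕ → ℕ)
    (h : ∀ C : CStr L, Nonempty (B.dom ≃[L.toLang] C.dom) → ∃ j, Red (X j) (chi C.diag)) :
    ∃ j, ∀ C : CStr L, Nonempty (B.dom ≃[L.toLang] C.dom) → Red (X j) (chi C.diag) := by
  classical
  rcases Set.eq_empty_or_nonempty B.dom with hB | ⟨b0, hb0⟩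
  · obtain ⟨j, hj⟩ := h B ⟨Language.Equiv.refl _ _⟩
    refine ⟨j, fun C hC => ?_⟩
    obtain ⟨e⟩ := hC
    rw [chi_eq_of_empty hB e.symm]
    exact hj
  let Good : List ℕ → Prop := fun q => ∀ a ∈ q, a ∈ B.dom
  let Req : CFun → ℕ → List ℕ → Prop := fun F j r =>
    (∃ x m w y, m ≤ r.length ∧ F.1 ((bits B.diag r).take m, x, w) = some y ∧ y ≠ X j x) ∨
    (∃ x, ∀ r', r <+: r' → Good r' → ∀ m w, m ≤ r'.length →
      F.1 ((bits B.diag r').take m, x, w) = none)
  by_cases hdense : ∀ F j q, Good q → ∃ r, q <+: r ∧ Good r ∧ Req F j r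
  · exfalso
    let _ : Encodable ((CFun × ℕ) ⊕ B.dom) := Encodable.ofCountable _
    let R : ℕ → List ℕ → Prop := fun i r =>
      match decode (α := (CFun × ℕ) ⊕ B.dom) i with
      | none => True
      | some (Sum.inl x) => Req x.1 x.2 r
      | some (Sum.inr b) => (b : ℕ) ∈ r
    obtain ⟨π, hπ1, hπ2⟩ := exists_generic Good (fun a ha => by cases ha)
      (fun q r hr hqr a ha => hr a (hqr.subset ha)) R (by
        intro i q hq
        simp only [R]
        rcases decode (α := (CFun × ℕ) ⊕ B.dom) i with _ | (x | b)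
        · exact ⟨q, List.prefix_refl _, hq, trivial⟩
        · exact hdense x.1 x.2 q hq
        · refine ⟨q ++ [(b : ℕ)], List.prefix_append _ _, ?_, by simp⟩
          intro a ha
          rcases List.mem_append.mp ha with h1 | h1
          · exact hq a h1
          · rw [List.mem_singleton] at h1
            rw [h1]
            exact b.2) (by
        intro q hq
        refine ⟨q ++ [b0], List.prefix_append _ _, ?_, by simp⟩
        intro a ha
        rcases List.mem_append.mp ha with h1 | h1
        · exact hq a h1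
        · rw [List.mem_singleton] at h1
          rw [h1]
          exact hb0)
    have h1 : ∀ n, π n ∈ B.dom := by
      intro n
      apply hπ1 (n + 1)
      rw [ini_succ]
      simp
    have h2 : ∀ b ∈ B.dom, ∃ n, π n = b := by
      intro b hb
      obtain ⟨m, hm⟩ := hπ2 (encode (Sum.inr ⟨b, hb⟩ : (CFun × ℕ) ⊕ B.dom))
      simp only [R, encodek] at hm
      simp only [ini, List.mem_map, List.mem_range] at hm
      obtain ⟨n, _, hn⟩ := hm
      exact ⟨n, hn⟩
    obtain ⟨j, F, hF, hs, hc⟩ := h (copy B π h1 h2) ⟨copyEquiv B π h1 h2⟩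
    obtain ⟨m0, hm0⟩ := hπ2 (encode (Sum.inl (⟨F, hF⟩, j) : (CFun × ℕ) ⊕ B.dom))
    simp only [R, encodek, Req] at hm0
    have htake : ∀ m k, m ≤ k → (bits B.diag (ini π k)).take m =
        ini (chi (copy B π h1 h2).diag) m := by
      intro m k hmk
      rw [← ini_chi_copy B π h1 h2 k, ini_take _ hmk]
    rcases hm0 with ⟨x, m, w, y, hm, hy, hne⟩ | ⟨x, hx⟩
    · rw [ini_length] at hm
      rw [htake m m0 hm] at hy
      exact hne (hs m x w y hy)
    · obtain ⟨m, w, hmw⟩ := hc x
      have h3 := hx (ini π (max m m0)) (ini_isPre π (le_max_right _ _)) (hπ1 _) m w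
        (by rw [ini_length]; exact le_max_left _ _)
      rw [htake m _ (le_max_left _ _), hmw] at h3
      cases h3
  · push Not at hdense
    obtain ⟨F, j, p, hp, hnd⟩ := hdense
    have hn1 : ∀ r, p <+: r → Good r → ∀ x m w y, m ≤ r.length →
        F.1 ((bits B.diag r).take m, x, w) = some y → y = X j x := by
      intro r hr hg x m w y hm hy
      by_contra hne
      exact hnd r hr hg (Or.inl ⟨x, m, w, y, hm, hy, hne⟩)
    have hn2 : ∀ x, ∃ r', p <+: r' ∧ Good r' ∧ ∃ m w, m ≤ r'.length ∧
        F.1 ((bits B.diag r').take m, x, w) ≠ none := by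
      intro x
      by_contra hcon
      push Not at hcon
      exact hnd p (List.prefix_refl _) hp (Or.inr ⟨x, fun r' h1 h2 m w hm => hcon r' h1 h2 m w hm⟩)
    refine ⟨j, fun C hC => ?_⟩
    obtain ⟨e⟩ := hC
    -- `e : B ≃ C`
    let ρ : ℕ → ℕ := fun b => if hb : b ∈ B.dom then (e ⟨b, hb⟩ : ℕ) else 0
    let ρ' : ℕ → ℕ := fun c => if hc : c ∈ C.dom then (e.symm ⟨c, hc⟩ : ℕ) else 0
    have hρ : ∀ b : B.dom, ρ b = e b := fun b => by simp only [ρ, dif_pos b.2]
    have hρ' : ∀ c : C.dom, ρ' c = e.symm c := fun c => by simp only [ρ', dif_pos c.2]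
    have hρρ' : ∀ b ∈ B.dom, ρ' (ρ b) = b := by
      intro b hb
      rw [hρ ⟨b, hb⟩, hρ' (e ⟨b, hb⟩)]
      simp
    have hρmem : ∀ b ∈ B.dom, ρ b ∈ C.dom := by
      intro b hb
      rw [hρ ⟨b, hb⟩]
      exact Subtype.property _
    have hρ'mem : ∀ c ∈ C.dom, ρ' c ∈ B.dom := by
      intro c hc
      rw [hρ' ⟨c, hc⟩]
      exact Subtype.property _
    refine ⟨search (p.map ρ) F.1, computable_search _ F.2, ?_, ?_⟩
    · intro M x w y hy
      unfold search at hy
      simp only at hy
      set d := p.map ρ ++ ofNat (List ℕ) w.unpair.1 with hd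
      by_cases hside : sideCond d (ini (chi C.diag) M) w.unpair.2.unpair.1
      · rw [if_pos hside] at hy
        obtain ⟨h1, h2, h3⟩ := sideCond_ini hside
        rw [h3, bits_eq_of_equiv e.symm ρ' hρ' d h1] at hy
        refine hn1 (d.map ρ') ?_ ?_ x _ _ y (by rw [List.length_map]; exact h2) hy
        · rw [hd, List.map_append, List.map_map]
          have : p.map (ρ' ∘ ρ) = p := by
            conv_rhs => rw [← List.map_id p]
            apply List.map_congr_left
            intro b hb
            exact hρρ' b (hp b hb)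
          rw [this]
          exact List.prefix_append _ _
        · intro b hb
          rw [List.mem_map] at hb
          obtain ⟨c, hc, rfl⟩ := hb
          exact hρ'mem c (h1 c hc)
      · rw [if_neg hside] at hy
        cases hy
    · intro x
      obtain ⟨r', hr1, hr2, m, w, hm, hne⟩ := hn2 x
      obtain ⟨y, hy⟩ := Option.ne_none_iff_exists'.mp hne
      have hyx := hn1 r' hr1 hr2 x m w y hm hy
      subst hyx
      obtain ⟨t, ht⟩ := hr1
      have hd : r'.map ρ = p.map ρ ++ t.map ρ := by rw [← ht, List.map_append]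
      have hdC : ∀ a ∈ r'.map ρ, a ∈ C.dom := by
        intro a ha
        rw [List.mem_map] at ha
        obtain ⟨b, hb, rfl⟩ := ha
        exact hρmem b (hr2 b hb)
      obtain ⟨M, hM⟩ := exists_sideCond C hdC (m := m) (by rw [List.length_map]; exact hm)
      refine ⟨M, Nat.pair (encode (t.map ρ)) (Nat.pair m w), ?_⟩
      unfold search
      simp only [Nat.unpair_pair, ofNat_encode]
      rw [← hd, if_pos hM]
      obtain ⟨h1, h2, h3⟩ := sideCond_ini hM
      rw [h3, bits_eq_of_equiv e.symm ρ' hρ' _ h1]
      have h4 : (r'.map ρ).map ρ' = r' := by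
        rw [List.map_map]
        conv_rhs => rw [← List.map_id r']
        apply List.map_congr_left
        intro b hb
        exact hρρ' b (hr2 b hb)
      rw [h4]
      exact hy

end Pool.Agent.Helper73.Spectra
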